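import Mathlib

/-!
# Characters of finite groups generated by two elements with a tame relation

and surjections of non-cyclic `ℓ`-groups onto the product of two cyclic groups of order `ℓ`.
-/

set_option autoImplicit false

namespace Pool.Agent.R768.IG

theorem comm_of_closure {A : Type*} [Group A] {t s : A} (hgen : Subgroup.closure {t, s} = ⊤)
    (hts : t * s = s * t) (a b : A) : a * b = b * a := by
  have hcomm : ∀ x ∈ ({t, s} : Set A), ∀ y ∈ ({t, s} : Set A), x * y = y * x := by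
    intro x hx y hy
    rcases hx with rfl | rfl <;> rcases hy with rfl | rfl
    · rfl
    · exact hts
    · exact hts.symm
    · rfl
  have h1 : ∀ x ∈ Subgroup.closure ({t, s} : Set A), ∀ y ∈ Subgroup.closure ({t, s} : Set A),
      x * y = y * x := by
    intro x hx y hy
    have h2 := Subgroup.isMulCommutative_closure hcomm
    exact congrArg Subtype.val (h2.is_comm.comm (⟨x, hx⟩ : Subgroup.closure ({t, s} : Set A))
      ⟨y, hy⟩)
  rw [hgen] at h1
  exact h1 a trivial b trivial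

theorem ell_part {A : Type*} [Group A] {x : A} {n m : ℕ} (hn : x ^ n = 1) (hm : x ^ m = 1)
    (h : Nat.Coprime n m) : x = 1 := by
  rw [← orderOf_eq_one_iff]
  exact Nat.eq_one_of_dvd_coprimes h (orderOf_dvd_of_pow_eq_one hn)
    (orderOf_dvd_of_pow_eq_one hm)

theorem ell_dvd_order {A : Type*} [Group A] {x : A} {ℓ j : ℕ} (hℓ : ℓ.Prime)
    (hj : x ^ ℓ ^ j = 1) (hx : x ≠ 1) : ℓ ∣ orderOf x := by
  obtain ⟨i, _, hi⟩ := (Nat.dvd_prime_pow hℓ).1 (orderOf_dvd_of_pow_eq_one hj)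
  have : i ≠ 0 := by
    rintro rfl
    rw [pow_zero] at hi
    exact hx (orderOf_eq_one_iff.1 hi)
  rw [hi]
  exact dvd_pow_self _ this

theorem char_aux {Q : Type} [Group Q] [Finite Q] {t s : Q}
    (hgen : Subgroup.closure {t, s} = ⊤) {q ℓ j : ℕ} (hℓ : ℓ.Prime) (hq1 : 1 ≤ q)
    (hq : ℓ ∣ q - 1) (hrel : s * t * s⁻¹ = t ^ q) (hj : t ^ ℓ ^ j = 1) (ht : t ≠ 1) :
    ∃ f : Q →* ℂˣ, f t ≠ 1 := by
  let T : Subgroup Q := Subgroup.zpowers (t ^ ℓ)
  have hTn : T.Normal := by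
    rw [← Subgroup.normalizer_eq_top_iff, eq_top_iff, ← hgen, Subgroup.closure_le]
    intro x hx
    rcases hx with rfl | rfl
    · apply Subgroup.mem_normalizer_fintype
      intro n hn
      obtain ⟨k, rfl⟩ := Subgroup.mem_zpowers_iff.1 hn
      apply Subgroup.mem_zpowers_iff.2
      refine ⟨k, ?_⟩
      rw [(((Commute.refl x).pow_right ℓ).zpow_right k).eq, mul_inv_cancel_right]
    · apply Subgroup.mem_normalizer_fintype
      intro n hn
      obtain ⟨k, rfl⟩ := Subgroup.mem_zpowers_iff.1 hn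
      apply Subgroup.mem_zpowers_iff.2
      refine ⟨q * k, ?_⟩
      rw [← conj_zpow, ← conj_pow, hrel, zpow_mul, zpow_natCast, ← pow_mul, ← pow_mul, mul_comm]
  have htT : t ∉ T := by
    intro h
    obtain ⟨k, hk⟩ := Subgroup.mem_zpowers_iff.1 h
    have h1 : t ^ ((ℓ : ℤ) * k - 1) = 1 := by
      rw [zpow_sub_one, zpow_mul, zpow_natCast, hk, mul_inv_cancel]
    have h2 : (ℓ : ℤ) ∣ (ℓ : ℤ) * k - 1 :=
      dvd_trans (Int.natCast_dvd_natCast.2 (ell_dvd_order hℓ hj ht))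
        (orderOf_dvd_iff_zpow_eq_one.2 h1)
    have h3 : (ℓ : ℤ) ∣ 1 := by
      have := dvd_sub (dvd_mul_right (ℓ : ℤ) k) h2
      simpa using this
    have h6 : ℓ ∣ 1 := by exact_mod_cast h3
    exact hℓ.one_lt.ne' (Nat.dvd_one.1 h6)
  let m : Q →* Q ⧸ T := QuotientGroup.mk' T
  have hmT : ∀ x, m x = 1 ↔ x ∈ T := fun x => QuotientGroup.eq_one_iff x
  have hgen2 : Subgroup.closure {m t, m s} = ⊤ := by
    have h1 := congrArg (Subgroup.map m) hgen
    rw [MonoidHom.map_closure, Set.image_pair,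
      Subgroup.map_top_of_surjective m (QuotientGroup.mk'_surjective T)] at h1
    exact h1
  have hts : m t * m s = m s * m t := by
    have h1 : m s * m t * (m s)⁻¹ = m t ^ q := by
      rw [← map_inv, ← map_mul, ← map_mul, hrel, map_pow]
    have h2 : m t ^ q = m t := by
      obtain ⟨k, hk⟩ := hq
      have h3 : q = ℓ * k + 1 := by omega
      have h4 : m t ^ ℓ = 1 := by
        rw [← map_pow, hmT]; exact Subgroup.mem_zpowers _
      rw [h3, pow_succ, pow_mul, h4, one_pow, one_mul]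
    rw [h2] at h1
    exact (mul_inv_eq_iff_eq_mul.1 h1).symm
  let _ : CommGroup (Q ⧸ T) := { mul_comm := comm_of_closure hgen2 hts }
  have hmt : m t ≠ 1 := fun h => htT ((hmT t).1 h)
  obtain ⟨φ, hφ⟩ := CommGroup.exists_apply_ne_one_of_hasEnoughRootsOfUnity (Q ⧸ T) ℂ hmt
  exact ⟨φ.comp m, hφ⟩

theorem char_exists {Q : Type} [Group Q] [Finite Q] (W : Subgroup Q) [W.Normal] {t s : Q}
    (hgen : Subgroup.closure {t, s} ⊔ W = ⊤) {q ℓ j : ℕ} (hℓ : ℓ.Prime) (hq1 : 1 ≤ q)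
    (hq : ℓ ∣ q - 1) (hW : ∀ w ∈ W, ∃ n, Nat.Coprime n ℓ ∧ w ^ n = 1)
    (hrel : s * t * s⁻¹ * (t ^ q)⁻¹ ∈ W) (hj : t ^ ℓ ^ j = 1) (ht : t ≠ 1) :
    ∃ f : Q →* ℂˣ, f t ≠ 1 := by
  let m : Q →* Q ⧸ W := QuotientGroup.mk' W
  have hm : ∀ x, m x = 1 ↔ x ∈ W := fun x => QuotientGroup.eq_one_iff x
  have hgen2 : Subgroup.closure {m t, m s} = ⊤ := by
    have h1 := congrArg (Subgroup.map m) hgen
    rw [Subgroup.map_sup, MonoidHom.map_closure, Set.image_pair,
      Subgroup.map_top_of_surjective m (QuotientGroup.mk'_surjective W)] at h1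
    have h2 : W.map m = ⊥ := by
      rw [Subgroup.map_eq_bot_iff]
      intro x hx
      exact (hm x).2 hx
    rw [h2, sup_bot_eq] at h1
    exact h1
  have hrel2 : m s * m t * (m s)⁻¹ = m t ^ q := by
    rw [← mul_inv_eq_one, ← map_pow, ← map_inv, ← map_inv, ← map_mul, ← map_mul, ← map_mul, hm]
    exact hrel
  have hj2 : m t ^ ℓ ^ j = 1 := by rw [← map_pow, hj, map_one]
  have ht2 : m t ≠ 1 := by
    intro h
    obtain ⟨n, hn, hn1⟩ := hW t ((hm t).1 h)
    exact ht (ell_part hn1 hj (Nat.Coprime.pow_right _ hn))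
  obtain ⟨φ, hφ⟩ := char_aux hgen2 hℓ hq1 hq hrel2 hj2 ht2
  exact ⟨φ.comp m, hφ⟩

end Pool.Agent.R768.IG
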