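import Mathlib

/-!
# A group of order `ℓ ^ 5`

It is an extension of the product of two groups of order `ℓ` by an elementary abelian group, and
no pair of generators `u, v` satisfies a relation `v u v⁻¹ = u ^ k`.
-/

set_option autoImplicit false

namespace Pool.Agent.R768.IG

/-- triples -/
@[ext] structure Hs (ℓ : ℕ) where
  a : ZMod (ℓ ^ 2)
  b : ZMod (ℓ ^ 2)
  c : ZMod ℓ

namespace Hs

variable {ℓ : ℕ}

/-- reduction -/
def ρ : ZMod (ℓ ^ 2) →+* ZMod ℓ := ZMod.castHom (dvd_pow_self ℓ two_ne_zero) (ZMod ℓ)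

instance : Mul (Hs ℓ) := ⟨fun x y => ⟨x.a + y.a, x.b + y.b, x.c + y.c + ρ x.a * ρ y.b⟩⟩
instance : One (Hs ℓ) := ⟨⟨0, 0, 0⟩⟩
instance : Inv (Hs ℓ) := ⟨fun x => ⟨-x.a, -x.b, -x.c + ρ x.a * ρ x.b⟩⟩

@[simp] theorem mul_a (x y : Hs ℓ) : (x * y).a = x.a + y.a := rfl
@[simp] theorem mul_b (x y : Hs ℓ) : (x * y).b = x.b + y.b := rfl
@[simp] theorem mul_c (x y : Hs ℓ) : (x * y).c = x.c + y.c + ρ x.a * ρ y.b := rfl
@[simp] theorem one_a : (1 : Hs ℓ).a = 0 := rfl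
@[simp] theorem one_b : (1 : Hs ℓ).b = 0 := rfl
@[simp] theorem one_c : (1 : Hs ℓ).c = 0 := rfl
@[simp] theorem inv_a (x : Hs ℓ) : (x⁻¹).a = -x.a := rfl
@[simp] theorem inv_b (x : Hs ℓ) : (x⁻¹).b = -x.b := rfl
@[simp] theorem inv_c (x : Hs ℓ) : (x⁻¹).c = -x.c + ρ x.a * ρ x.b := rfl

instance : Group (Hs ℓ) :=
  Group.ofLeftAxioms
    (by intro x y z; ext <;> simp <;> ring)
    (by intro x; ext <;> simp)
    (by intro x; ext <;> simp)

/-- first coordinate -/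
def A : Hs ℓ →* Multiplicative (ZMod (ℓ ^ 2)) where
  toFun x := Multiplicative.ofAdd x.a
  map_one' := rfl
  map_mul' _ _ := rfl

/-- second coordinate -/
def B : Hs ℓ →* Multiplicative (ZMod (ℓ ^ 2)) where
  toFun x := Multiplicative.ofAdd x.b
  map_one' := rfl
  map_mul' _ _ := rfl

/-- the projection to the product of two groups of order `ℓ` -/
def π : Hs ℓ →* Multiplicative (ZMod ℓ) × Multiplicative (ZMod ℓ) where
  toFun x := (Multiplicative.ofAdd (ρ x.a), Multiplicative.ofAdd (ρ x.b))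
  map_one' := by simp
  map_mul' x y := by simp

theorem zpow_a (x : Hs ℓ) (k : ℤ) : (x ^ k).a = k • x.a := by
  have := map_zpow (A (ℓ := ℓ)) x k
  exact this

theorem zpow_b (x : Hs ℓ) (k : ℤ) : (x ^ k).b = k • x.b := by
  have := map_zpow (B (ℓ := ℓ)) x k
  exact this

theorem pow_a (x : Hs ℓ) (k : ℕ) : (x ^ k).a = k • x.a := by
  have := map_pow (A (ℓ := ℓ)) x k
  exact this

theorem pow_b (x : Hs ℓ) (k : ℕ) : (x ^ k).b = k • x.b := by
  have := map_pow (B (ℓ := ℓ)) x k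
  exact this

theorem pow_c {x : Hs ℓ} (hx : ρ x.a = 0) (k : ℕ) : (x ^ k).c = k • x.c := by
  induction k with
  | zero => simp
  | succ k ih => rw [pow_succ', mul_c, ih, hx, zero_mul, add_zero, succ_nsmul']

theorem π_surj [NeZero ℓ] : Function.Surjective (π (ℓ := ℓ)) := by
  rintro ⟨x, y⟩
  obtain ⟨a, ha⟩ := ZMod.castHom_surjective (dvd_pow_self ℓ two_ne_zero) (Multiplicative.toAdd x)
  obtain ⟨b, hb⟩ := ZMod.castHom_surjective (dvd_pow_self ℓ two_ne_zero) (Multiplicative.toAdd y)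
  exact ⟨⟨a, b, 0⟩, Prod.ext ha hb⟩

theorem π_eq_one {x : Hs ℓ} : π x = 1 ↔ ρ x.a = 0 ∧ ρ x.b = 0 := by
  constructor
  · intro h
    exact ⟨congrArg Prod.fst h, congrArg Prod.snd h⟩
  · rintro ⟨h1, h2⟩
    exact Prod.ext h1 h2

theorem ker_comm (x y : Hs ℓ) (hx : π x = 1) (hy : π y = 1) : x * y = y * x := by
  rw [π_eq_one] at hx hy
  ext
  · simp [add_comm]
  · simp [add_comm]
  · simp [hx.1, hy.1, add_comm]

theorem mul_of_ρ {a : ZMod (ℓ ^ 2)} (ha : ρ a = 0) : ℓ • a = 0 := by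
  rcases Nat.eq_zero_or_pos ℓ with rfl | h
  · simp
  have : NeZero (ℓ ^ 2) := ⟨(pow_pos h 2).ne'⟩
  obtain ⟨n, rfl⟩ := ZMod.natCast_zmod_surjective a
  rw [ρ, map_natCast, ZMod.natCast_eq_zero_iff] at ha
  obtain ⟨m, rfl⟩ := ha
  rw [nsmul_eq_mul, ← Nat.cast_mul, ZMod.natCast_eq_zero_iff, sq]
  exact mul_dvd_mul_left _ (dvd_mul_right _ _)

theorem ker_pow (x : Hs ℓ) (hx : π x = 1) : x ^ ℓ = 1 := by
  rw [π_eq_one] at hx
  ext
  · rw [pow_a, mul_of_ρ hx.1, one_a]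
  · rw [pow_b, mul_of_ρ hx.2, one_b]
  · rw [pow_c hx.1, one_c]; simp

theorem pow_sq (x : Hs ℓ) : x ^ (ℓ ^ 2) = 1 := by
  rw [sq, pow_mul]
  apply ker_pow
  rw [π_eq_one, pow_a, pow_b, map_nsmul, map_nsmul]
  simp

theorem unit_of_ρ [hℓ : Fact ℓ.Prime] {a : ZMod (ℓ ^ 2)} (ha : ρ a ≠ 0) {k : ℤ} (h : k • a = 0) :
    ((ℓ ^ 2 : ℕ) : ℤ) ∣ k := by
  have : NeZero (ℓ ^ 2) := ⟨(pow_pos hℓ.out.pos 2).ne'⟩
  obtain ⟨n, rfl⟩ := ZMod.natCast_zmod_surjective a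
  rw [ρ, map_natCast, Ne, ZMod.natCast_eq_zero_iff] at ha
  rw [zsmul_eq_mul] at h
  have h1 : ((k * (n : ℤ) : ℤ) : ZMod (ℓ ^ 2)) = 0 := by push_cast; exact h
  rw [ZMod.intCast_zmod_eq_zero_iff_dvd] at h1
  have h2 : IsCoprime ((ℓ ^ 2 : ℕ) : ℤ) (n : ℤ) := by
    rw [Nat.isCoprime_iff_coprime]
    exact Nat.Coprime.pow_left _ ((Nat.Prime.coprime_iff_not_dvd hℓ.out).2 ha)
  exact h2.dvd_of_dvd_mul_right h1

theorem no_rel [hℓ : Fact ℓ.Prime] {u v : Hs ℓ} {k : ℤ} (h : v * u * v⁻¹ = u ^ k)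
    (hgen : ∀ y₁ y₂ : ZMod ℓ, ∃ i j : ℤ, π (u ^ i * v ^ j) =
      (Multiplicative.ofAdd y₁, Multiplicative.ofAdd y₂)) : False := by
  have hδ : ρ v.a * ρ u.b = ρ u.a * ρ v.b := by
    by_cases h0 : ρ u.a = 0 ∧ ρ u.b = 0
    · rw [h0.1, h0.2]; simp
    have h1 : ((ℓ ^ 2 : ℕ) : ℤ) ∣ k - 1 := by
      have ha : (k - 1) • u.a = 0 := by
        have := congrArg Hs.a h
        rw [zpow_a] at this
        simp only [mul_a, inv_a] at this
        rw [sub_smul, one_smul, ← this]; ring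
      have hb : (k - 1) • u.b = 0 := by
        have := congrArg Hs.b h
        rw [zpow_b] at this
        simp only [mul_b, inv_b] at this
        rw [sub_smul, one_smul, ← this]; ring
      by_cases h2 : ρ u.a = 0
      · exact unit_of_ρ (fun h3 => h0 ⟨h2, h3⟩) hb
      · exact unit_of_ρ h2 ha
    obtain ⟨m, hm⟩ := h1
    have h2 : u ^ k = u := by
      have : k = ((ℓ ^ 2 : ℕ) : ℤ) * m + 1 := by omega
      rw [this, zpow_add, zpow_mul, zpow_natCast, pow_sq, one_zpow, one_mul, zpow_one]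
    rw [h2, mul_inv_eq_iff_eq_mul] at h
    have h3 := congrArg Hs.c h
    simp only [mul_c] at h3
    linear_combination h3
  obtain ⟨i, j, hij⟩ := hgen 1 0
  obtain ⟨i', j', hij'⟩ := hgen 0 1
  have e1 : (i : ZMod ℓ) * ρ u.a + j * ρ v.a = 1 := by
    have := congrArg (fun z => Multiplicative.toAdd (Prod.fst z)) hij
    change ρ ((u ^ i * v ^ j).a) = 1 at this
    rw [mul_a, zpow_a, zpow_a, map_add, map_zsmul, map_zsmul, zsmul_eq_mul, zsmul_eq_mul] at this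
    exact this
  have e2 : (i : ZMod ℓ) * ρ u.b + j * ρ v.b = 0 := by
    have := congrArg (fun z => Multiplicative.toAdd (Prod.snd z)) hij
    change ρ ((u ^ i * v ^ j).b) = 0 at this
    rw [mul_b, zpow_b, zpow_b, map_add, map_zsmul, map_zsmul, zsmul_eq_mul, zsmul_eq_mul] at this
    exact this
  have e3 : (i' : ZMod ℓ) * ρ u.b + j' * ρ v.b = 1 := by
    have := congrArg (fun z => Multiplicative.toAdd (Prod.snd z)) hij'
    change ρ ((u ^ i' * v ^ j').b) = 1 at this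
    rw [mul_b, zpow_b, zpow_b, map_add, map_zsmul, map_zsmul, zsmul_eq_mul, zsmul_eq_mul] at this
    exact this
  have h1 : (1 : ZMod ℓ) = 0 := by
    have : (1 : ZMod ℓ) = ((i : ZMod ℓ) * ρ u.a + j * ρ v.a) * (i' * ρ u.b + j' * ρ v.b)
        - (i * ρ u.b + j * ρ v.b) * (i' * ρ u.a + j' * ρ v.a) := by
      rw [e1, e2, e3]; ring
    rw [this]
    linear_combination ((j : ZMod ℓ) * i' - i * j') * hδ
  exact one_ne_zero h1

end Hs

end Pool.Agent.R768.IG
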