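import Mathlib

/-!
# A non-cyclic `ℓ`-group has a quotient which is the product of two groups of order `ℓ`
-/

set_option autoImplicit false

namespace Pool.Agent.R768.IG

theorem coatom_hom {Q : Type} [Group Q] [Finite Q] {ℓ : ℕ} [hℓ : Fact ℓ.Prime] (hQ : IsPGroup ℓ Q)
    {M : Subgroup Q} (hM : IsCoatom M) :
    ∃ f : Q →* Multiplicative (ZMod ℓ), f.ker = M := by
  have hnil : Group.IsNilpotent Q := hQ.isNilpotent
  have hn : M.Normal :=
    Subgroup.NormalizerCondition.normal_of_coatom M Group.normalizerCondition_of_isNilpotent hM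
  obtain ⟨n, hn1⟩ := IsPGroup.iff_card.1 hQ
  obtain ⟨k, hk⟩ := IsPGroup.iff_card.1 (hQ.to_subgroup M)
  have hidx : M.index = ℓ := by
    have h1 : Nat.card M * M.index = Nat.card Q := M.card_mul_index
    have h2 : M.index ≠ 1 := fun h => hM.1 (Subgroup.index_eq_one.1 h)
    have hkn : k < n := by
      by_contra hcon
      push Not at hcon
      have h3 : ℓ ^ n ≤ ℓ ^ k := Nat.pow_le_pow_right hℓ.out.pos hcon
      have h4 : M.index ≤ 1 := by
        rw [hk, hn1] at h1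
        have h5 : ℓ ^ k * M.index ≤ ℓ ^ k * 1 := by rw [mul_one, h1]; exact h3
        exact Nat.le_of_mul_le_mul_left h5 (pow_pos hℓ.out.pos _)
      have h5 : 0 < M.index := Nat.pos_of_ne_zero M.index_ne_zero_of_finite
      omega
    obtain ⟨K, hK, hMK⟩ := Sylow.exists_subgroup_card_pow_succ (G := Q) (p := ℓ) (n := k)
      (by rw [hn1]; exact pow_dvd_pow _ hkn) hk
    have hlt : M < K := by
      refine lt_of_le_of_ne hMK ?_
      rintro rfl
      rw [hk] at hK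
      have := Nat.pow_right_injective hℓ.out.two_le hK
      omega
    have hKt : K = ⊤ := hM.2 K hlt
    rw [hKt, Subgroup.card_top, hn1] at hK
    rw [hk, hn1, hK, pow_succ] at h1
    exact Nat.eq_of_mul_eq_mul_left (pow_pos hℓ.out.pos _) h1
  have hc1 : Nat.card (Q ⧸ M) = ℓ := hidx
  have hc2 : Nat.card (Multiplicative (ZMod ℓ)) = ℓ := by simp
  let e : Q ⧸ M ≃* Multiplicative (ZMod ℓ) := mulEquivOfPrimeCardEq hc1 hc2
  refine ⟨e.toMonoidHom.comp (QuotientGroup.mk' M), ?_⟩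
  ext x
  rw [MonoidHom.mem_ker]
  change e (x : Q ⧸ M) = 1 ↔ _
  rw [map_eq_one_iff e e.injective]
  exact QuotientGroup.eq_one_iff x

theorem two_homs {Q : Type} [Group Q] [Finite Q] {ℓ : ℕ} [hℓ : Fact ℓ.Prime] (hQ : IsPGroup ℓ Q)
    (hnc : ¬ IsCyclic Q) :
    ∃ f₁ f₂ : Q →* Multiplicative (ZMod ℓ), ∀ y₁ y₂, ∃ x, f₁ x = y₁ ∧ f₂ x = y₂ := by
  have hnt : (⊥ : Subgroup Q) ≠ ⊤ := by
    intro h
    apply hnc
    have : Subsingleton Q := by
      rw [subsingleton_iff]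
      intro a b
      have ha : a ∈ (⊥ : Subgroup Q) := by rw [h]; trivial
      have hb : b ∈ (⊥ : Subgroup Q) := by rw [h]; trivial
      rw [Subgroup.mem_bot.1 ha, Subgroup.mem_bot.1 hb]
    exact isCyclic_of_subsingleton
  obtain ⟨M₁, hM₁, -⟩ := (eq_top_or_exists_le_coatom (⊥ : Subgroup Q)).resolve_left hnt
  obtain ⟨x, hx⟩ : ∃ x, x ∉ M₁ := by
    by_contra hcon
    push Not at hcon
    exact hM₁.1 ((Subgroup.eq_top_iff' M₁).2 hcon)
  have hz : Subgroup.zpowers x ≠ ⊤ := by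
    intro h
    apply hnc
    refine ⟨x, fun y => ?_⟩
    have : y ∈ Subgroup.zpowers x := by rw [h]; trivial
    exact Subgroup.mem_zpowers_iff.1 this
  obtain ⟨M₂, hM₂, hxM⟩ := (eq_top_or_exists_le_coatom (Subgroup.zpowers x)).resolve_left hz
  have hx2 : x ∈ M₂ := hxM (Subgroup.mem_zpowers x)
  obtain ⟨f₁, hf₁⟩ := coatom_hom hQ hM₁
  obtain ⟨f₂, hf₂⟩ := coatom_hom hQ hM₂
  refine ⟨f₁, f₂, ?_⟩
  -- an element of `M₁` outside `M₂`
  obtain ⟨z, hz1, hz2⟩ : ∃ z ∈ M₁, z ∉ M₂ := by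
    by_contra hcon
    push Not at hcon
    have hle : M₁ ≤ M₂ := hcon
    rcases hle.lt_or_eq with h | h
    · exact hM₂.1 (hM₁.2 _ h)
    · rw [h] at hx; exact hx hx2
  have hgen : ∀ (u : Multiplicative (ZMod ℓ)), u ≠ 1 → ∀ y, ∃ k : ℤ, u ^ k = y := by
    intro u hu y
    have h1 : Subgroup.zpowers u = ⊤ := zpowers_eq_top_of_prime_card (p := ℓ) (by simp) hu
    have : y ∈ Subgroup.zpowers u := by rw [h1]; trivial
    exact Subgroup.mem_zpowers_iff.1 this
  have hx' : f₁ x ≠ 1 := by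
    intro h
    apply hx
    rw [← hf₁]; exact h
  have hz' : f₂ z ≠ 1 := by
    intro h
    apply hz2
    rw [← hf₂]; exact h
  intro y₁ y₂
  obtain ⟨k, hk⟩ := hgen _ hx' y₁
  obtain ⟨l, hl⟩ := hgen _ hz' y₂
  have h1 : f₁ z = 1 := by rw [← MonoidHom.mem_ker, hf₁]; exact hz1
  have h2 : f₂ x = 1 := by rw [← MonoidHom.mem_ker, hf₂]; exact hx2
  refine ⟨x ^ k * z ^ l, ?_, ?_⟩
  · rw [map_mul, map_zpow, map_zpow, h1, one_zpow, mul_one, hk]
  · rw [map_mul, map_zpow, map_zpow, h2, one_zpow, one_mul, hl]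

end Pool.Agent.R768.IG
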