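import Pool.Agent.R768.IG.Cov
import Pool.Agent.R768.IG.Char
import Pool.Agent.R768.IG.PGrp
import Pool.Agent.R768.IG.Hs

/-!
# The group-theoretic core
-/

set_option autoImplicit false

namespace Pool.Agent.R768.IG

theorem frob_iter {Γ : Type} [Group Γ] (D W : Subgroup Γ)
    (hnorm : ∀ d ∈ D, ∀ w ∈ W, d * w * d⁻¹ ∈ W) {σ τ : Γ} (hσ : σ ∈ D) (hτ : τ ∈ D) {q : ℕ}
    (hrel : σ * τ * σ⁻¹ * (τ ^ q)⁻¹ ∈ W) (i : ℕ) :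
    σ ^ i * τ * (σ ^ i)⁻¹ * (τ ^ (q ^ i))⁻¹ ∈ W := by
  have hn : (W.subgroupOf D).Normal := by
    constructor
    intro w hw d
    exact hnorm d d.2 w hw
  let qm := QuotientGroup.mk' (W.subgroupOf D)
  have hqm : ∀ x : D, qm x = 1 ↔ (x : Γ) ∈ W := by
    intro x
    exact (QuotientGroup.eq_one_iff x).trans Iff.rfl
  let s : D := ⟨σ, hσ⟩
  let u : D := ⟨τ, hτ⟩
  have h1 : qm s * qm u * (qm s)⁻¹ = qm u ^ q := by
    have : qm (s * u * s⁻¹ * (u ^ q)⁻¹) = 1 := (hqm _).2 hrel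
    rw [map_mul, map_mul, map_mul, map_inv, map_inv, map_pow] at this
    exact mul_inv_eq_one.1 this
  have h2 := conj_iter _ _ _ h1 i
  have h3 : qm (s ^ i * u * (s ^ i)⁻¹ * (u ^ (q ^ i))⁻¹) = 1 := by
    rw [map_mul, map_mul, map_mul, map_inv, map_inv, map_pow, map_pow, h2, mul_inv_cancel]
  exact (hqm _).1 h3

theorem pow_surj {E : ℕ} (hE : 0 < E) : Function.Surjective (powMonoidHom E : ℂˣ →* ℂˣ) := by
  intro y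
  obtain ⟨z, hz⟩ := IsAlgClosed.exists_pow_nat_eq (y : ℂ) hE
  have hz0 : z ≠ 0 := by
    rintro rfl
    rw [zero_pow hE.ne'] at hz
    exact y.ne_zero hz.symm
  exact ⟨Units.mk0 z hz0, Units.ext (by simpa using hz)⟩

theorem core_ram {Γ H : Type} [Group Γ] [Group H] [Finite H] (r : Γ →* H) {E : ℕ} (hE : 0 < E)
    (hL : Lifts E r) (D W : Subgroup Γ)
    (hnorm : ∀ d ∈ D, ∀ w ∈ W, d * w * d⁻¹ ∈ W) {p ℓ : ℕ} (hp : p.Prime) (hℓ : ℓ.Prime)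
    (hne : ℓ ≠ p) (hW : ∀ w ∈ W, ∃ n, Nat.Coprime n ℓ ∧ w ^ n = 1) {σ τ : Γ}
    (hσ : σ ∈ D) (hτ : τ ∈ D) (hrel : σ * τ * σ⁻¹ * (τ ^ p)⁻¹ ∈ W) {j : ℕ}
    (hj : τ ^ ℓ ^ j = 1) (hτ1 : r τ ≠ 1) {M : ℕ} (hM : ℓ ^ M ∣ E) {m : ℕ}
    (h1 : ℓ ∣ p ^ m - 1) :
    ℓ ^ (M + 1) ∣ p ^ (Nat.gcd m (ℓ - 1)) - 1 := by
  have hWr : ∀ w ∈ W.map r, ∃ n, Nat.Coprime n ℓ ∧ w ^ n = 1 := by
    rintro _ ⟨w, hw, rfl⟩
    obtain ⟨n, hn, hn1⟩ := hW w hw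
    exact ⟨n, hn, by rw [← map_pow, hn1, map_one]⟩
  have hjr : (r τ) ^ ℓ ^ j = 1 := by rw [← map_pow, hj, map_one]
  have h2 : ℓ ∣ p ^ (ℓ - 1) - 1 := by
    have h3 := Nat.ModEq.pow_totient ((Nat.coprime_primes hp hℓ).2 hne.symm)
    rw [Nat.totient_prime hℓ] at h3
    exact (Nat.modEq_iff_dvd' (Nat.one_le_pow _ _ hp.pos)).1 h3.symm
  set d := Nat.gcd m (ℓ - 1) with hd
  have h3 : ℓ ∣ p ^ d - 1 := by
    have h4 := Nat.pow_sub_one_gcd_pow_sub_one p m (ℓ - 1)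
    rw [hd, ← h4]
    exact Nat.dvd_gcd h1 h2
  set q := p ^ d with hq
  have hq1 : 1 ≤ q := Nat.one_le_pow _ _ hp.pos
  set s := σ ^ d with hs
  have hsD : s ∈ D := pow_mem hσ d
  have hrel2 : s * τ * s⁻¹ * (τ ^ q)⁻¹ ∈ W := frob_iter D W hnorm hσ hτ hrel d
  let Q : Subgroup H := Subgroup.closure {r τ, r s} ⊔ W.map r
  have htQ : r τ ∈ Q := (le_sup_left : _ ≤ Q) (Subgroup.subset_closure (by simp))
  have hsQ : r s ∈ Q := (le_sup_left : _ ≤ Q) (Subgroup.subset_closure (by simp))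
  have hWQ : W.map r ≤ Q := le_sup_right
  let t' : Q := ⟨r τ, htQ⟩
  let s' : Q := ⟨r s, hsQ⟩
  let W' : Subgroup Q := (W.map r).subgroupOf Q
  have hW'n : W'.Normal := by
    rw [Subgroup.normal_subgroupOf_iff hWQ]
    -- `Q` normalizes `W.map r`
    have hQn : Q ≤ Subgroup.normalizer ((W.map r : Subgroup H) : Set H) := by
      refine sup_le ?_ Subgroup.le_normalizer
      rw [Subgroup.closure_le]
      intro x hx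
      apply Subgroup.mem_normalizer_fintype
      rintro _ ⟨w, hw, rfl⟩
      rcases hx with rfl | rfl
      · exact ⟨τ * w * τ⁻¹, hnorm τ hτ w hw, by simp⟩
      · exact ⟨s * w * s⁻¹, hnorm s hsD w hw, by simp⟩
    intro h k hh hk
    exact (Subgroup.mem_normalizer_iff.1 (hQn hk) h).1 hh
  have hgen : Subgroup.closure {t', s'} ⊔ W' = ⊤ := by
    have hinj : Function.Injective (Subgroup.map Q.subtype) :=
      Subgroup.map_injective Q.subtype_injective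
    apply hinj
    rw [Subgroup.map_sup, MonoidHom.map_closure, Set.image_pair, Subgroup.subgroupOf_map_subtype,
      inf_eq_left.2 hWQ, ← MonoidHom.range_eq_map, Subgroup.range_subtype]
    rfl
  have hW' : ∀ w ∈ W', ∃ n, Nat.Coprime n ℓ ∧ w ^ n = 1 := by
    intro w hw
    obtain ⟨n, hn, hn1⟩ := hWr w hw
    exact ⟨n, hn, Subtype.ext hn1⟩
  have hrel' : s' * t' * s'⁻¹ * (t' ^ q)⁻¹ ∈ W' := by
    refine ⟨_, hrel2, ?_⟩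
    simp [s', t']
  have hj' : t' ^ ℓ ^ j = 1 := Subtype.ext hjr
  have ht' : t' ≠ 1 := fun h => hτ1 (congrArg Subtype.val h)
  obtain ⟨f, hf⟩ := char_exists W' hgen hℓ hq1 h3 hW' hrel' hj' ht'
  obtain ⟨θ, hθ⟩ := hL Q ℂˣ ℂˣ (powMonoidHom E) (pow_surj hE) (fun a b _ _ => mul_comm a b)
    (fun a ha => ha) f
  let τ₁ : Q.comap r := ⟨τ, htQ⟩
  let s₁ : Q.comap r := ⟨s, hsQ⟩
  have hw₁ : ((s₁ * τ₁ * s₁⁻¹ * (τ₁ ^ q)⁻¹ : Q.comap r) : Γ) ∈ W := hrel2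
  obtain ⟨n, hn, hn1⟩ := hW _ hw₁
  have h5 : (θ (s₁ * τ₁ * s₁⁻¹ * (τ₁ ^ q)⁻¹)) ^ n = 1 := by
    rw [← map_pow]
    have : (s₁ * τ₁ * s₁⁻¹ * (τ₁ ^ q)⁻¹ : Q.comap r) ^ n = 1 := Subtype.ext hn1
    rw [this, map_one]
  have h6 : θ (s₁ * τ₁ * s₁⁻¹ * (τ₁ ^ q)⁻¹) = ((θ τ₁) ^ (q - 1))⁻¹ := by
    rw [map_mul, map_mul, map_mul, map_inv, map_inv, map_pow, pow_sub _ hq1, pow_one,
      mul_comm (θ s₁), mul_inv_cancel_right, mul_inv_rev, inv_inv]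
  have h7 : (θ τ₁) ^ ℓ ^ j = 1 := by
    rw [← map_pow]
    have : τ₁ ^ ℓ ^ j = 1 := Subtype.ext hj
    rw [this, map_one]
  have h8 : (θ τ₁) ^ (q - 1) = 1 := by
    rw [h6] at h5
    apply ell_part (n := n) (m := ℓ ^ j) _ _ (Nat.Coprime.pow_right _ hn)
    · rwa [inv_pow, inv_eq_one] at h5
    · rw [← pow_mul, mul_comm, pow_mul, h7, one_pow]
  have h9 : (θ τ₁) ^ E ≠ 1 := by
    intro h
    apply hf
    rw [← hθ τ₁] at *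
    exact h
  obtain ⟨b, _, hb⟩ := (Nat.dvd_prime_pow hℓ).1 (orderOf_dvd_of_pow_eq_one h7)
  have h10 : M < b := by
    by_contra hcon
    push Not at hcon
    apply h9
    rw [← orderOf_dvd_iff_pow_eq_one, hb]
    exact (pow_dvd_pow ℓ hcon).trans hM
  have h11 : ℓ ^ b ∣ q - 1 := by
    rw [← hb]
    exact orderOf_dvd_of_pow_eq_one h8
  exact (pow_dvd_pow ℓ h10).trans h11

theorem core_inv {Γ H : Type} [Group Γ] [Group H] [Finite H] (r : Γ →* H) {E : ℕ} (hE : 0 < E)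
    (hL : Lifts E r) (hE2 : 2 ∣ E) {x : Γ} (hx : x ^ 2 = 1) : r x = 1 := by
  by_contra hne
  let Q : Subgroup H := Subgroup.zpowers (r x)
  let t : Q := ⟨r x, Subgroup.mem_zpowers _⟩
  have ht : t ≠ 1 := fun h => hne (congrArg Subtype.val h)
  have hcomm : ∀ a b : Q, a * b = b * a := by
    rintro ⟨a, ha⟩ ⟨b, hb⟩
    obtain ⟨i, rfl⟩ := Subgroup.mem_zpowers_iff.1 ha
    obtain ⟨j, rfl⟩ := Subgroup.mem_zpowers_iff.1 hb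
    apply Subtype.ext
    change (r x) ^ i * (r x) ^ j = (r x) ^ j * (r x) ^ i
    rw [← zpow_add, ← zpow_add, add_comm]
  let _ : CommGroup Q := { mul_comm := hcomm }
  obtain ⟨f, hf⟩ := CommGroup.exists_apply_ne_one_of_hasEnoughRootsOfUnity Q ℂ ht
  obtain ⟨θ, hθ⟩ := hL Q ℂˣ ℂˣ (powMonoidHom E) (pow_surj hE) (fun a b _ _ => mul_comm a b)
    (fun a ha => ha) f
  let x₁ : Q.comap r := ⟨x, Subgroup.mem_zpowers _⟩
  apply hf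
  have h1 := hθ x₁
  have h2 : x₁ ^ 2 = 1 := Subtype.ext hx
  obtain ⟨k, rfl⟩ := hE2
  rw [powMonoidHom_apply, pow_mul, ← map_pow, h2, map_one, one_pow] at h1
  exact h1.symm

theorem core_cyc {Γ H : Type} [Group Γ] [Group H] [Finite H] (r : Γ →* H) {E : ℕ}
    (hL : Lifts E r) (D I W : Subgroup Γ)
    (hnorm : ∀ d ∈ D, ∀ x ∈ I, d * x * d⁻¹ ∈ I) {ℓ : ℕ} [hℓ : Fact ℓ.Prime] (hE : ℓ ∣ E)
    (hW : ∀ w ∈ W, ∃ n, Nat.Coprime n ℓ ∧ w ^ n = 1)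
    (hcycD : ∀ B : Subgroup Γ, ∃ b ∈ D ⊓ B, ∀ x ∈ D ⊓ B, ∃ k : ℤ, x * (b ^ k)⁻¹ ∈ I)
    (hcycI : ∀ B : Subgroup Γ, ∃ b ∈ I ⊓ B, ∀ x ∈ I ⊓ B, ∃ k : ℤ, x * (b ^ k)⁻¹ ∈ W)
    (Q : Subgroup H) (hQD : Q ≤ D.map r) (hQ : IsPGroup ℓ Q) : IsCyclic Q := by
  by_contra hnc
  obtain ⟨f₁, f₂, hf⟩ := two_homs hQ hnc
  have : NeZero ℓ := ⟨hℓ.out.ne_zero⟩
  obtain ⟨θ, hθ⟩ := hL Q (Hs ℓ) (Multiplicative (ZMod ℓ) × Multiplicative (ZMod ℓ)) Hs.π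
    Hs.π_surj Hs.ker_comm (fun a ha => by
      obtain ⟨k, rfl⟩ := hE
      rw [pow_mul, Hs.ker_pow a ha, one_pow]) (f₁.prod f₂)
  let B : Subgroup Γ := Q.comap r
  obtain ⟨σ₀, hσ₀, hσ⟩ := hcycD B
  obtain ⟨τ₀, hτ₀, hτ⟩ := hcycI B
  let s : B := ⟨σ₀, hσ₀.2⟩
  let t : B := ⟨τ₀, hτ₀.2⟩
  have hWθ : ∀ w : B, (w : Γ) ∈ W → θ w = 1 := by
    intro w hw
    obtain ⟨n, hn, hn1⟩ := hW _ hw
    apply ell_part (n := n) (m := ℓ ^ 2) _ (Hs.pow_sq _) (Nat.Coprime.pow_right _ hn)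
    rw [← map_pow]
    have : w ^ n = 1 := Subtype.ext hn1
    rw [this, map_one]
  have hIθ : ∀ x : B, (x : Γ) ∈ I → ∃ k : ℤ, θ x = (θ t) ^ k := by
    intro x hx
    obtain ⟨k, hk⟩ := hτ x ⟨hx, x.2⟩
    refine ⟨k, ?_⟩
    have h1 : θ (x * (t ^ k)⁻¹) = 1 := by
      apply hWθ
      simpa using hk
    rw [map_mul, map_inv, map_zpow, mul_inv_eq_one] at h1
    exact h1
  have hDθ : ∀ x : B, (x : Γ) ∈ D → ∃ i k : ℤ, θ x = (θ t) ^ i * (θ s) ^ k := by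
    intro x hx
    obtain ⟨k, hk⟩ := hσ x ⟨hx, x.2⟩
    obtain ⟨i, hi⟩ := hIθ (x * (s ^ k)⁻¹) (by simpa using hk)
    refine ⟨i, k, ?_⟩
    rw [← hi, ← map_zpow, ← map_mul, inv_mul_cancel_right]
  have hst : ((s * t * s⁻¹ : B) : Γ) ∈ I := by
    change σ₀ * τ₀ * σ₀⁻¹ ∈ I
    exact hnorm _ hσ₀.1 _ hτ₀.1
  obtain ⟨k, hk⟩ := hIθ _ hst
  rw [map_mul, map_mul, map_inv] at hk
  refine Hs.no_rel hk ?_
  intro y₁ y₂
  obtain ⟨x, hx1, hx2⟩ := hf (Multiplicative.ofAdd y₁) (Multiplicative.ofAdd y₂)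
  obtain ⟨d, hd, hdx⟩ := hQD x.2
  have hdB : d ∈ B := by
    change r d ∈ Q
    rw [hdx]; exact x.2
  obtain ⟨i, j, hij⟩ := hDθ ⟨d, hdB⟩ hd
  refine ⟨i, j, ?_⟩
  rw [← hij, hθ]
  have h1 : (⟨r d, hdB⟩ : Q) = x := Subtype.ext hdx
  change (f₁.prod f₂) ⟨r d, hdB⟩ = _
  rw [h1]
  exact Prod.ext hx1 hx2

end Pool.Agent.R768.IG
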