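import Mathlib

/-!
# Finite covers of a finite group by an abelian kernel

`G` is a finite group, `F` the free group on the set `G`, `K` the kernel of `F → G` and
`V = [K, K] K^E`.  The quotient `F / V` is a finite group with the abelian normal subgroup `K / V`
and quotient `G`, in which the orders of the elements outside `K / V` are large.
-/

set_option autoImplicit false

namespace Pool.Agent.R768.IG

variable (G : Type) [Group G]

/-- the projection of the free group -/
def pr : FreeGroup G →* G := FreeGroup.lift id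

theorem pr_surj : Function.Surjective (pr G) := fun g => ⟨FreeGroup.of g, by simp [pr]⟩

/-- the subgroup `[K, K] K^E` -/
def V (E : ℕ) : Subgroup (FreeGroup G) :=
  ⁅(pr G).ker, (pr G).ker⁆ ⊔ Subgroup.closure {x | ∃ k ∈ (pr G).ker, k ^ E = x}

theorem V_le (E : ℕ) : V G E ≤ (pr G).ker := by
  unfold V
  refine sup_le (Subgroup.commutator_le_left _ _) ?_
  rw [Subgroup.closure_le]
  rintro x ⟨k, hk, rfl⟩
  exact Subgroup.pow_mem _ hk _

instance V_normal (E : ℕ) : (V G E).Normal := by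
  unfold V
  have h1 : (⁅(pr G).ker, (pr G).ker⁆ : Subgroup (FreeGroup G)).Normal := inferInstance
  have h2 : (Subgroup.closure {x | ∃ k ∈ (pr G).ker, k ^ E = x}).Normal := by
    constructor
    intro n hn g
    induction hn using Subgroup.closure_induction with
    | mem x hx =>
      obtain ⟨k, hk, rfl⟩ := hx
      apply Subgroup.subset_closure
      refine ⟨g * k * g⁻¹, ?_, ?_⟩
      · exact (inferInstance : (pr G).ker.Normal).conj_mem k hk g
      · rw [conj_pow]
    | one => simp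
    | mul x y _ _ hx hy =>
      have : g * (x * y) * g⁻¹ = (g * x * g⁻¹) * (g * y * g⁻¹) := by group
      rw [this]
      exact Subgroup.mul_mem _ hx hy
    | inv x _ hx =>
      have : g * x⁻¹ * g⁻¹ = (g * x * g⁻¹)⁻¹ := by group
      rw [this]
      exact Subgroup.inv_mem _ hx
  infer_instance

/-- the finite cover `F / [K, K] K^E` -/
abbrev Cov (E : ℕ) : Type := FreeGroup G ⧸ V G E

/-- the projection of the cover to the group -/
def cpr (E : ℕ) : Cov G E →* G := QuotientGroup.lift (V G E) (pr G) (fun _ hx => V_le G E hx)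

theorem cpr_surj (E : ℕ) : Function.Surjective (cpr G E) := by
  intro g
  obtain ⟨x, hx⟩ := pr_surj G g
  exact ⟨QuotientGroup.mk x, hx⟩

theorem cpr_mk (E : ℕ) (x : FreeGroup G) : cpr G E (QuotientGroup.mk x) = pr G x := rfl

theorem ker_comm (E : ℕ) (a b : Cov G E) (ha : cpr G E a = 1) (hb : cpr G E b = 1) :
    a * b = b * a := by
  induction a using QuotientGroup.induction_on with
  | H x =>
    induction b using QuotientGroup.induction_on with
    | H y =>
      rw [← QuotientGroup.mk_mul, ← QuotientGroup.mk_mul, QuotientGroup.eq]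
      have h1 : y⁻¹ * x⁻¹ * (y⁻¹)⁻¹ * (x⁻¹)⁻¹ ∈ V G E :=
        (le_sup_left : _ ≤ V G E) (Subgroup.commutator_mem_commutator
          (Subgroup.inv_mem _ (MonoidHom.mem_ker.2 hb)) (Subgroup.inv_mem _ (MonoidHom.mem_ker.2 ha)))
      have h2 : (x * y)⁻¹ * (y * x) = y⁻¹ * x⁻¹ * (y⁻¹)⁻¹ * (x⁻¹)⁻¹ := by
        group
      rw [h2]; exact h1

theorem ker_pow (E : ℕ) (a : Cov G E) (ha : cpr G E a = 1) : a ^ E = 1 := by
  induction a using QuotientGroup.induction_on with
  | H x =>
    rw [← QuotientGroup.mk_pow, QuotientGroup.eq_one_iff]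
    exact (le_sup_right : _ ≤ V G E) (Subgroup.subset_closure ⟨x, MonoidHom.mem_ker.2 ha, rfl⟩)

theorem cov_finite [Finite G] {E : ℕ} (hE : 0 < E) : Finite (Cov G E) := by
  have h0 : Group.FG (Cov G E) := inferInstance
  have h1 : (cpr G E).ker.FiniteIndex := inferInstance
  have h2 : Group.FG (cpr G E).ker := Subgroup.fg_of_index_ne_zero _
  let _ : CommGroup (cpr G E).ker :=
    { mul_comm := fun a b => Subtype.ext (ker_comm G E a b a.2 b.2) }
  have h3 : Finite (cpr G E).ker := by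
    apply CommGroup.finite_of_fg_isMulTorsion
    intro a
    rw [isOfFinOrder_iff_pow_eq_one]
    exact ⟨E, hE, Subtype.ext (ker_pow G E a a.2)⟩
  have h4 := Subgroup.card_mul_index (cpr G E).ker
  apply Nat.finite_of_card_ne_zero
  rw [← h4]
  exact mul_ne_zero Nat.card_pos.ne' h1.index_ne_zero

/-- Embedding problems with abelian kernel of exponent `E` for the subgroups of the group `G` have
a weak solution over `Γ`. -/
def Lifts (E : ℕ) {Γ H : Type} [Group Γ] [Group H] (c : Γ →* H) : Prop :=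
  ∀ (Q : Subgroup H) (X Y : Type) [Group X] [Group Y] (π : X →* Y), Function.Surjective π →
    (∀ a b, π a = 1 → π b = 1 → a * b = b * a) → (∀ a, π a = 1 → a ^ E = 1) →
    ∀ f : Q →* Y, ∃ θ : Q.comap c →* X, ∀ x, π (θ x) = f ⟨c x, x.2⟩

theorem lifts_cov (E : ℕ) : Lifts E (cpr G E) := by
  classical
  intro Q X Y _ _ π hπ hab hE f
  let H : Subgroup (FreeGroup G) := Q.comap (pr G)
  have hfree : IsFreeGroup H := inferInstance
  have hKH : (pr G).ker ≤ H := by
    intro k hk
    change pr G k ∈ Q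
    rw [MonoidHom.mem_ker.1 hk]
    exact Subgroup.one_mem _
  let f' : H →* Y := f.comp ((pr G).subgroupComap Q)
  choose g hg using fun i : IsFreeGroup.Generators H => hπ (f' (IsFreeGroup.of i))
  let θ' : H →* X := IsFreeGroup.lift g
  have hθ' : ∀ x, π (θ' x) = f' x := by
    have : π.comp θ' = f' := by
      apply IsFreeGroup.ext_hom
      intro i
      simp [θ', hg]
    exact fun x => DFunLike.congr_fun this x
  have hker : ∀ (k : FreeGroup G) (hk : k ∈ (pr G).ker), π (θ' ⟨k, hKH hk⟩) = 1 := by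
    intro k hk
    rw [hθ']
    have : (pr G).subgroupComap Q ⟨k, hKH hk⟩ = 1 := Subtype.ext (MonoidHom.mem_ker.1 hk)
    change f ((pr G).subgroupComap Q ⟨k, hKH hk⟩) = 1
    rw [this, map_one]
  -- `θ'` is trivial on `V`
  let U : Subgroup (FreeGroup G) := (θ'.ker).map H.subtype
  have hVU : V G E ≤ U := by
    unfold V
    refine sup_le ?_ ?_
    · rw [Subgroup.commutator_le]
      intro a ha b hb
      refine ⟨(⟨a, hKH ha⟩ : H) * ⟨b, hKH hb⟩ * (⟨a, hKH ha⟩ : H)⁻¹ * (⟨b, hKH hb⟩ : H)⁻¹, ?_, rfl⟩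
      rw [SetLike.mem_coe, MonoidHom.mem_ker, map_mul, map_mul, map_mul, map_inv, map_inv]
      rw [hab _ _ (hker a ha) (hker b hb)]
      group
    · rw [Subgroup.closure_le]
      rintro x ⟨k, hk, rfl⟩
      refine ⟨(⟨k, hKH hk⟩ : H) ^ E, ?_, rfl⟩
      rw [SetLike.mem_coe, MonoidHom.mem_ker, map_pow]
      exact hE _ (hker k hk)
  have hVH : V G E ≤ H := (V_le G E).trans hKH
  -- descend to the quotient
  let D : Subgroup (Cov G E) := Q.comap (cpr G E)
  let ρ : H →* D := ((QuotientGroup.mk' (V G E)).comp H.subtype).codRestrict D (fun x => x.2)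
  have hρ : Function.Surjective ρ := by
    rintro ⟨x, hx⟩
    induction x using QuotientGroup.induction_on with
    | H x => exact ⟨⟨x, hx⟩, rfl⟩
  have hle : ρ.ker ≤ θ'.ker := by
    intro x hx
    have h1 : (QuotientGroup.mk (x : FreeGroup G) : Cov G E) = 1 :=
      congrArg Subtype.val (MonoidHom.mem_ker.1 hx)
    rw [QuotientGroup.eq_one_iff] at h1
    obtain ⟨y, hy, hyx⟩ := hVU h1
    have : y = x := Subtype.ext hyx
    rw [← this]; exact hy
  let θ : D →* X := (QuotientGroup.lift ρ.ker θ' hle).comp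
    (QuotientGroup.quotientKerEquivOfSurjective ρ hρ).symm.toMonoidHom
  have hθ : ∀ x : H, θ (ρ x) = θ' x := by
    intro x
    have h1 : (QuotientGroup.quotientKerEquivOfSurjective ρ hρ).symm (ρ x) = (x : H ⧸ ρ.ker) := by
      rw [MulEquiv.symm_apply_eq]; rfl
    change QuotientGroup.lift ρ.ker θ' hle
      ((QuotientGroup.quotientKerEquivOfSurjective ρ hρ).symm (ρ x)) = _
    rw [h1]; rfl
  refine ⟨θ, ?_⟩
  intro x
  obtain ⟨y, rfl⟩ := hρ x
  rw [hθ, hθ']
  rfl

variable {G}

theorem Lifts.comp_left {E : ℕ} {Γ H H' : Type} [Group Γ] [Group H] [Group H'] {c : Γ →* H}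
    (h : Lifts E c) (ι : H ≃* H') : Lifts E (ι.toMonoidHom.comp c) := by
  intro Q X Y _ _ π hπ hab hE f
  obtain ⟨θ, hθ⟩ := h (Q.comap ι.toMonoidHom) X Y π hπ hab hE
    (f.comp (ι.toMonoidHom.subgroupComap Q))
  exact ⟨θ, fun x => hθ x⟩

theorem Lifts.comp_right {E : ℕ} {Γ Γ' H : Type} [Group Γ] [Group Γ'] [Group H] {c : Γ →* H}
    (h : Lifts E c) (e : Γ' ≃* Γ) : Lifts E (c.comp e.toMonoidHom) := by
  intro Q X Y _ _ π hπ hab hE f
  obtain ⟨θ, hθ⟩ := h Q X Y π hπ hab hE f
  exact ⟨θ.comp (e.toMonoidHom.subgroupComap (Q.comap c)), fun x => hθ ⟨e x, x.2⟩⟩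

theorem conj_iter {Q : Type*} [Group Q] (s u : Q) (q : ℕ) (h : s * u * s⁻¹ = u ^ q) (j : ℕ) :
    s ^ j * u * (s ^ j)⁻¹ = u ^ (q ^ j) := by
  induction j with
  | zero => simp
  | succ j ih =>
    have : s ^ (j + 1) * u * (s ^ (j + 1))⁻¹ = s * (s ^ j * u * (s ^ j)⁻¹) * s⁻¹ := by
      rw [pow_succ' s j, mul_inv_rev]; group
    rw [this, ih, ← conj_pow, h, ← pow_mul, pow_succ', mul_comm q]

end Pool.Agent.R768.IG
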