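import Pool.Agent.R768.IG.Inert

/-!
# The tame inertia group and the group of the residue field extension are cyclic
-/

set_option autoImplicit false

open scoped Pointwise

namespace Pool.Agent.R768.IG

theorem cyc_mod {A C : Type*} [Group A] [Group C] [IsCyclic C] (f : A →* C) (B : Subgroup A) :
    ∃ b ∈ B, ∀ x ∈ B, ∃ k : ℤ, f (x * (b ^ k)⁻¹) = 1 := by
  have hc : IsCyclic (B.map f) := inferInstance
  obtain ⟨⟨g, b, hb, rfl⟩, hg⟩ := hc
  refine ⟨b, hb, fun x hx => ?_⟩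
  obtain ⟨k, hk⟩ := hg ⟨f x, x, hx, rfl⟩
  refine ⟨k, ?_⟩
  have h1 : f b ^ k = f x := congrArg Subtype.val hk
  rw [map_mul, map_inv, map_zpow, h1, mul_inv_cancel]

section tame

variable {S Γ : Type*} [CommRing S] [IsDedekindDomain S] [Group Γ] [MulSemiringAction Γ S]
  (P : Ideal S)

theorem scalar_unique [P.IsPrime] (hP : P ≠ ⊥) {c c' : S} (z : S → S)
    (h : ∀ x ∈ P, z x - c * x ∈ P ^ 2) (h' : ∀ x ∈ P, z x - c' * x ∈ P ^ 2) : c - c' ∈ P := by
  obtain ⟨π, hπ, hπ2⟩ := Ideal.exists_mem_pow_notMem_pow_succ P hP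
    (Ideal.IsPrime.ne_top inferInstance) 1
  rw [pow_one] at hπ
  have h1 : (c - c') * π ∈ P ^ 2 := by
    have := sub_mem (h' π hπ) (h π hπ)
    have e : (c - c') * π = (z π - c' * π) - (z π - c * π) := by ring
    rw [e]; exact this
  exact (Ideal.IsPrime.mul_mem_pow P h1).resolve_right hπ2

/-- the character of the tame inertia group -/
theorem exists_tame_char [P.IsPrime] (hP : P ≠ ⊥) :
    ∃ f : P.inertia Γ →* (S ⧸ P)ˣ, ∀ τ, f τ = 1 → (τ : Γ) ∈ Wd (Γ := Γ) P := by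
  choose c hc using fun τ : P.inertia Γ => exists_scalar P hP τ.2
  let g : P.inertia Γ →* S ⧸ P :=
    { toFun := fun τ => Ideal.Quotient.mk P (c τ)
      map_one' := by
        rw [← map_one (Ideal.Quotient.mk P), Ideal.Quotient.eq]
        apply scalar_unique P hP (fun x => x)
        · intro x hx
          have := hc 1 x hx
          rw [Subgroup.coe_one, one_smul] at this
          exact this
        · intro x _
          simp
      map_mul' := by
        intro τ τ'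
        rw [← map_mul, Ideal.Quotient.eq]
        apply scalar_unique P hP (fun x => ((τ * τ' : P.inertia Γ) : Γ) • x)
        · intro x hx
          exact hc _ x hx
        · intro x hx
          have hx' : (τ' : Γ) • x ∈ P :=
            smul_mem_of_stab (Ideal.inertia_le_stabilizer P τ'.2) hx
          have e : ((τ * τ' : P.inertia Γ) : Γ) • x - c τ * c τ' * x =
              ((τ : Γ) • ((τ' : Γ) • x) - c τ * ((τ' : Γ) • x)) +
                c τ * ((τ' : Γ) • x - c τ' * x) := by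
            rw [Subgroup.coe_mul, mul_smul]; ring
          rw [e]
          exact add_mem (hc τ _ hx') (Ideal.mul_mem_left _ _ (hc τ' x hx)) }
  refine ⟨g.toHomUnits, fun τ hτ => ?_⟩
  have h1 : g τ = 1 := by
    have := congrArg Units.val hτ
    rwa [MonoidHom.coe_toHomUnits, Units.val_one] at this
  have h2 : c τ - 1 ∈ P := by
    rw [← Ideal.Quotient.eq, map_one]; exact h1
  rw [mem_Wd]
  refine ⟨τ.2, fun x hx => ?_⟩
  have e : (τ : Γ) • x - x = ((τ : Γ) • x - c τ * x) + (c τ - 1) * x := by ring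
  rw [e]
  refine add_mem (hc τ x hx) ?_
  rw [sq]
  exact Ideal.mul_mem_mul h2 hx

theorem inertia_cyc [P.IsPrime] (hP : P ≠ ⊥) [Finite (S ⧸ P)] (B : Subgroup Γ) :
    ∃ b ∈ P.inertia Γ ⊓ B, ∀ x ∈ P.inertia Γ ⊓ B, ∃ k : ℤ, x * (b ^ k)⁻¹ ∈ Wd (Γ := Γ) P := by
  obtain ⟨f, hf⟩ := exists_tame_char (Γ := Γ) P hP
  have hcyc : IsCyclic (S ⧸ P)ˣ := inferInstance
  obtain ⟨b, hb, h⟩ := cyc_mod f (B.subgroupOf (P.inertia Γ))
  refine ⟨b, ⟨b.2, hb⟩, fun x hx => ?_⟩
  obtain ⟨k, hk⟩ := h ⟨x, hx.1⟩ hx.2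
  exact ⟨k, hf _ hk⟩

end tame

section residue

variable {S Γ : Type*} [CommRing S] [Group Γ] [MulSemiringAction Γ S] (P : Ideal S)

attribute [local instance] Ideal.Quotient.field in
theorem stab_cyc [P.IsMaximal] [Finite (S ⧸ P)] [(P.under ℤ).IsMaximal] (B : Subgroup Γ) :
    ∃ b ∈ MulAction.stabilizer Γ P ⊓ B, ∀ x ∈ MulAction.stabilizer Γ P ⊓ B,
      ∃ k : ℤ, x * (b ^ k)⁻¹ ∈ P.inertia Γ := by
  have hcyc : IsCyclic ((S ⧸ P) ≃ₐ[ℤ ⧸ P.under ℤ] (S ⧸ P)) := inferInstance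
  obtain ⟨b, hb, h⟩ := cyc_mod (Ideal.Quotient.stabilizerHom P (P.under ℤ) Γ)
    (B.subgroupOf (MulAction.stabilizer Γ P))
  refine ⟨b, ⟨b.2, hb⟩, fun x hx => ?_⟩
  obtain ⟨k, hk⟩ := h ⟨x, hx.1⟩ hx.2
  refine ⟨k, ?_⟩
  have h1 := Ideal.Quotient.ker_stabilizerHom P (P.under ℤ) Γ
  have h2 := MonoidHom.mem_ker.2 hk
  rw [h1] at h2
  exact h2

end residue

end Pool.Agent.R768.IG
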