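import Pool.Agent.R768.IG.Main

/-!
# Assembly
-/

set_option autoImplicit false

open scoped Pointwise NumberField

namespace Pool.Agent.R768.IG

theorem iso_of_ker {Γ A B : Type} [Group Γ] [Group A] [Group B] (r : Γ →* A) (c : Γ →* B)
    (hr : Function.Surjective r) (hc : Function.Surjective c) (h : c.ker = r.ker) :
    ∃ ι : B ≃* A, ∀ x, ι (c x) = r x := by
  let e₁ := QuotientGroup.quotientKerEquivOfSurjective c hc
  let e₂ := QuotientGroup.quotientKerEquivOfSurjective r hr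
  let e₃ := QuotientGroup.quotientMulEquivOfEq h
  refine ⟨(e₁.symm.trans e₃).trans e₂, fun x => ?_⟩
  have h1 : e₁.symm (c x) = (x : Γ ⧸ c.ker) := by
    rw [MulEquiv.symm_apply_eq]; rfl
  rw [MulEquiv.trans_apply, MulEquiv.trans_apply, h1]
  rfl

theorem prime_dvd_cov (G : Type) [Group G] [Finite G] (n q : ℕ) (hq : q.Prime)
    [Finite (Cov G (Nat.card G ^ n))]
    (h : q ∣ Nat.card (Cov G (Nat.card G ^ n))) : q ∣ Nat.card G := by
  have := Fact.mk hq
  obtain ⟨x, hx⟩ := exists_prime_orderOf_dvd_card' q h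
  by_cases h1 : cpr G (Nat.card G ^ n) x = 1
  · have h2 := ker_pow G _ x h1
    have h3 := orderOf_dvd_of_pow_eq_one h2
    rw [hx] at h3
    exact hq.dvd_of_dvd_pow h3
  · have h2 : orderOf (cpr G (Nat.card G ^ n) x) = q := by
      apply orderOf_eq_prime _ h1
      rw [← map_pow, ← hx, pow_orderOf_eq_one, map_one]
    rw [← h2]
    exact orderOf_dvd_natCard _

theorem ker_restrict {L : Type} [Field L] [NumberField L] (F : IntermediateField ℚ L)
    [IsGalois ℚ F] :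
    (AlgEquiv.restrictNormalHom F : (L ≃ₐ[ℚ] L) →* (F ≃ₐ[ℚ] F)).ker = F.fixingSubgroup := by
  ext g
  rw [MonoidHom.mem_ker, IntermediateField.mem_fixingSubgroup_iff]
  constructor
  · intro h x hx
    have h1 := AlgEquiv.restrictNormal_commutes g F ⟨x, hx⟩
    have h2 : (AlgEquiv.restrictNormal g F) ⟨x, hx⟩ = (⟨x, hx⟩ : F) := DFunLike.congr_fun h _
    rw [h2] at h1
    exact h1.symm
  · intro h
    ext x
    have h1 := AlgEquiv.restrictNormal_commutes g F x
    exact h1.trans (h x x.2)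

theorem fixed_isGalois {L G : Type} [Field L] [NumberField L] [IsGalois ℚ L] [Group G]
    (c : (L ≃ₐ[ℚ] L) →* G) (F : IntermediateField ℚ L)
    (hF : F = IntermediateField.fixedField c.ker) : IsGalois ℚ F := by
  subst hF
  exact IsGalois.of_fixedField_normal_subgroup c.ker

theorem field_part {G : Type} [Group G] [Finite G] (M : ℕ) (L : Type) [Field L] [NumberField L]
    [IsGalois ℚ L] (e : (L ≃ₐ[ℚ] L) ≃* Cov G (Nat.card G ^ (M + 1)))
    (F : IntermediateField ℚ L)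
    (hF : F = IntermediateField.fixedField
      ((cpr G (Nat.card G ^ (M + 1))).comp e.toMonoidHom).ker) :
    IsGalois ℚ F ∧ Nonempty (G ≃* (F ≃ₐ[ℚ] F)) ∧
    NumberField.IsTotallyReal F ∧ ∀ p ℓ : ℕ, p.Prime → ℓ.Prime → ℓ ≠ p →
      ∀ P : Ideal (𝓞 F), P.IsPrime → (p : 𝓞 F) ∈ P →
        (ℓ ∣ P.ramificationIdx ℤ →
          ℓ ^ M ∣ p ^ (Nat.gcd (P.inertiaDeg ℤ) (ℓ - 1)) - 1) ∧
        ∀ Q : Subgroup (F ≃ₐ[ℚ] F), Q ≤ MulAction.stabilizer (F ≃ₐ[ℚ] F) P → IsPGroup ℓ Q →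
          IsCyclic Q := by
  set c : (L ≃ₐ[ℚ] L) →* G := (cpr G (Nat.card G ^ (M + 1))).comp e.toMonoidHom with hc
  have hcs : Function.Surjective c := (cpr_surj G _).comp e.surjective
  have hG : IsGalois ℚ F := fixed_isGalois c F hF
  have hNF : IsGaloisGroup c.ker F L := by
    rw [hF]
    exact IsGaloisGroup.subgroup _ ℚ L c.ker
  have hker : (AlgEquiv.restrictNormalHom F : (L ≃ₐ[ℚ] L) →* (F ≃ₐ[ℚ] F)).ker = c.ker := by
    rw [ker_restrict, hF, IntermediateField.fixingSubgroup_fixedField]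
  obtain ⟨ι, hι⟩ := iso_of_ker (AlgEquiv.restrictNormalHom F : (L ≃ₐ[ℚ] L) →* (F ≃ₐ[ℚ] F)) c
    (AlgEquiv.restrictNormalHom_surjective L) hcs hker.symm
  have hL : Lifts (Nat.card G ^ (M + 1))
      (AlgEquiv.restrictNormalHom F : (L ≃ₐ[ℚ] L) →* (F ≃ₐ[ℚ] F)) := by
    have h1 := ((lifts_cov G (Nat.card G ^ (M + 1))).comp_right e).comp_left ι
    have h2 : ι.toMonoidHom.comp ((cpr G (Nat.card G ^ (M + 1))).comp e.toMonoidHom) =
        (AlgEquiv.restrictNormalHom F : (L ≃ₐ[ℚ] L) →* (F ≃ₐ[ℚ] F)) := by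
      ext1 x
      exact hι x
    rw [h2] at h1
    exact h1
  have hcard : Nat.card (F ≃ₐ[ℚ] F) = Nat.card G := (Nat.card_congr ι.toEquiv).symm
  have h := scholz_of_lifts F c.ker hker (M := M) (pow_pos Nat.card_pos _) hL (fun ℓ _ hd => by
    rw [hcard] at hd
    exact pow_dvd_pow_of_dvd hd _)
  exact ⟨hG, ⟨ι⟩, h⟩

end Pool.Agent.R768.IG
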