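import Mathlib

/-!
# Wild and tame inertia at a prime ideal

`S` is a commutative ring with an action of a group `Γ`, `P` an ideal.  `Wd P` is the group of the
elements of the stabilizer which act trivially on `S ⧸ P` and on `P ⧸ P ^ 2`.
-/

set_option autoImplicit false

open scoped Pointwise

namespace Pool.Agent.R768.IG

section

variable {S Γ : Type*} [CommRing S] [Group Γ] [MulSemiringAction Γ S] (P : Ideal S)

theorem smul_mem_of_stab {P : Ideal S} {σ : Γ} (hσ : σ ∈ MulAction.stabilizer Γ P) {x : S}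
    (hx : x ∈ P) : σ • x ∈ P := by
  have := Ideal.smul_mem_pointwise_smul σ x P hx
  rwa [MulAction.mem_stabilizer_iff.1 hσ] at this

theorem smul_pow_mem_of_stab {P : Ideal S} {σ : Γ} (hσ : σ ∈ MulAction.stabilizer Γ P) (n : ℕ)
    {x : S} (hx : x ∈ P ^ n) : σ • x ∈ P ^ n := by
  have h1 : (P ^ n).map (MulSemiringAction.toRingHom Γ S σ) ≤ P ^ n := by
    rw [Ideal.map_pow]
    apply Ideal.pow_right_mono
    rw [Ideal.map_le_iff_le_comap]
    intro y hy
    exact smul_mem_of_stab hσ hy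
  exact h1 (Ideal.mem_map_of_mem _ hx)

/-- wild inertia -/
def Wd : Subgroup Γ where
  carrier := {σ | σ ∈ P.inertia Γ ∧ ∀ x ∈ P, σ • x - x ∈ P ^ 2}
  mul_mem' := by
    rintro a b ⟨ha, ha2⟩ ⟨hb, hb2⟩
    refine ⟨mul_mem ha hb, fun x hx => ?_⟩
    have h1 : (a * b) • x - x = (a • (b • x) - b • x) + (b • x - x) := by
      rw [mul_smul]; ring
    rw [h1]
    exact add_mem (ha2 _ (smul_mem_of_stab (Ideal.inertia_le_stabilizer P hb) hx)) (hb2 x hx)
  one_mem' := ⟨one_mem _, fun x _ => by simp⟩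
  inv_mem' := by
    rintro a ⟨ha, ha2⟩
    have ha' : a⁻¹ ∈ P.inertia Γ := inv_mem ha
    refine ⟨ha', fun x hx => ?_⟩
    have h1 := ha2 (a⁻¹ • x) (smul_mem_of_stab (Ideal.inertia_le_stabilizer P ha') hx)
    rw [smul_inv_smul] at h1
    rw [← neg_sub]
    exact neg_mem h1

theorem mem_Wd {σ : Γ} : σ ∈ Wd (Γ := Γ) P ↔ σ ∈ P.inertia Γ ∧ ∀ x ∈ P, σ • x - x ∈ P ^ 2 :=
  Iff.rfl

theorem Wd_norm {d : Γ} (hd : d ∈ MulAction.stabilizer Γ P) {w : Γ} (hw : w ∈ Wd (Γ := Γ) P) :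
    d * w * d⁻¹ ∈ Wd (Γ := Γ) P := by
  have hd' : d⁻¹ ∈ MulAction.stabilizer Γ P := inv_mem hd
  rw [mem_Wd] at hw ⊢
  constructor
  · intro x
    have h1 : (d * w * d⁻¹) • x - x = d • (w • (d⁻¹ • x) - d⁻¹ • x) := by
      rw [smul_sub, smul_inv_smul, mul_smul, mul_smul]
    rw [h1]
    exact smul_mem_of_stab hd (hw.1 _)
  · intro x hx
    have h1 : (d * w * d⁻¹) • x - x = d • (w • (d⁻¹ • x) - d⁻¹ • x) := by
      rw [smul_sub, smul_inv_smul, mul_smul, mul_smul]
    rw [h1]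
    exact smul_pow_mem_of_stab hd 2 (hw.2 _ (smul_mem_of_stab hd' hx))

/-- elements of `Wd P` act trivially on `P ^ i ⧸ P ^ (i + 1)` -/
theorem Wd_pow {w : Γ} (hw : w ∈ Wd (Γ := Γ) P) (i : ℕ) :
    ∀ x ∈ P ^ i, w • x - x ∈ P ^ (i + 1) := by
  have hst : w ∈ MulAction.stabilizer Γ P := Ideal.inertia_le_stabilizer P hw.1
  induction i with
  | zero =>
    intro x _
    rw [zero_add, pow_one]
    exact hw.1 x
  | succ i ih =>
    intro x hx
    rw [pow_succ' P i] at hx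
    refine Submodule.mul_induction_on hx ?_ ?_
    · intro a ha b hb
      have h1 : w • (a * b) - a * b = (w • a - a) * (w • b) + a * (w • b - b) := by
        rw [smul_mul']; ring
      rw [h1]
      apply add_mem
      · have h2 : P ^ (i + 1 + 1) = P ^ 2 * P ^ i := by rw [← pow_add]; congr 1; omega
        rw [h2]
        exact Ideal.mul_mem_mul (hw.2 a ha) (smul_pow_mem_of_stab hst i hb)
      · rw [pow_succ' P (i + 1)]
        exact Ideal.mul_mem_mul ha (ih b hb)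
    · intro a b ha hb
      have h1 : w • (a + b) - (a + b) = (w • a - a) + (w • b - b) := by
        rw [smul_add]; ring
      rw [h1]
      exact add_mem ha hb

/-- An element of order prime to `P` of the wild inertia group acts trivially modulo all powers
of `P`. -/
theorem Wd_step {w : Γ} (hw : w ∈ Wd (Γ := Γ) P) {p n : ℕ} (hp : (p : S) ∈ P)
    (hpn : Nat.Coprime n p) (hwn : w ^ n = 1) (i : ℕ) : ∀ x : S, w • x - x ∈ P ^ i := by
  have hst : w ∈ MulAction.stabilizer Γ P := Ideal.inertia_le_stabilizer P hw.1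
  induction i with
  | zero => intro x; simp
  | succ i ih =>
    intro x
    set δ := w • x - x with hδ
    have h1 : ∀ k : ℕ, w ^ k • x - x - (k : S) * δ ∈ P ^ (i + 1) := by
      intro k
      induction k with
      | zero => simp
      | succ k ihk =>
        have h2 : w ^ (k + 1) • x - x - ((k + 1 : ℕ) : S) * δ
            = (w • (w ^ k • x - x) - (w ^ k • x - x)) + (w ^ k • x - x - (k : S) * δ) := by
          rw [pow_succ', mul_smul, smul_sub, hδ]
          push_cast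
          ring
        rw [h2]
        refine add_mem ?_ ihk
        apply Wd_pow P hw i
        -- `w ^ k • x - x ∈ P ^ i`
        have h3 : w ^ k • x - x = (w ^ k • x - x - (k : S) * δ) + (k : S) * δ := by ring
        rw [h3]
        refine add_mem (Ideal.pow_le_pow_right (Nat.le_succ i) ihk) ?_
        exact Ideal.mul_mem_left _ _ (ih x)
    have h2 := h1 n
    rw [hwn, one_smul, sub_self, zero_sub] at h2
    have h3 : (n : S) * δ ∈ P ^ (i + 1) := by
      simpa using neg_mem h2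
    -- Bezout
    have h4 : IsCoprime (n : ℤ) ((p ^ (i + 1) : ℕ) : ℤ) :=
      Nat.isCoprime_iff_coprime.2 (Nat.Coprime.pow_right _ hpn)
    obtain ⟨u, v, huv⟩ := h4
    have h5 : δ = (u : S) * ((n : S) * δ) + ((v : S) * δ) * (p : S) ^ (i + 1) := by
      have h6 : ((u * n + v * ((p ^ (i + 1) : ℕ) : ℤ) : ℤ) : S) = 1 := by rw [huv]; simp
      push_cast at h6
      calc δ = ((u : S) * n + v * (p : S) ^ (i + 1)) * δ := by rw [h6, one_mul]
        _ = _ := by ring
    rw [h5]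
    exact add_mem (Ideal.mul_mem_left _ _ h3) (Ideal.mul_mem_left _ _ (Ideal.pow_mem_pow hp _))

/-- The wild inertia group has no elements of order prime to `p`. -/
theorem Wd_torsion [IsDomain S] [IsNoetherianRing S] [FaithfulSMul Γ S] (hP : P ≠ ⊤)
    {w : Γ} (hw : w ∈ Wd (Γ := Γ) P) {p n : ℕ} (hp : (p : S) ∈ P)
    (hpn : Nat.Coprime n p) (hwn : w ^ n = 1) : w = 1 := by
  apply FaithfulSMul.eq_of_smul_eq_smul (α := S)
  intro x
  rw [one_smul]
  have h1 : w • x - x ∈ (⨅ i : ℕ, P ^ i : Ideal S) := by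
    rw [Ideal.mem_iInf]
    intro i
    exact Wd_step P hw hp hpn hwn i x
  rw [Ideal.iInf_pow_eq_bot_of_isDomain P hP] at h1
  exact sub_eq_zero.1 ((Ideal.mem_bot).1 h1)

end

section Dedekind

variable {S Γ : Type*} [CommRing S] [IsDedekindDomain S] [Group Γ] [MulSemiringAction Γ S]
  (P : Ideal S)

/-- an element of the inertia group acts on `P ⧸ P ^ 2` by a scalar -/
theorem exists_scalar [P.IsPrime] (hP : P ≠ ⊥) {τ : Γ} (hτ : τ ∈ P.inertia Γ) :
    ∃ c : S, ∀ x ∈ P, τ • x - c * x ∈ P ^ 2 := by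
  have hst : τ ∈ MulAction.stabilizer Γ P := Ideal.inertia_le_stabilizer P hτ
  obtain ⟨π, hπ, hπ2⟩ := Ideal.exists_mem_pow_notMem_pow_succ P hP
    (Ideal.IsPrime.ne_top inferInstance) 1
  have key : ∀ x ∈ P, ∃ d : S, ∃ e ∈ P ^ 2, π * d + e = x := by
    intro x hx
    obtain ⟨d, e, he, h⟩ := Ideal.exists_mul_add_mem_pow_succ (i := 1) hP π x hπ hπ2
      (by rwa [pow_one])
    exact ⟨d, e, he, h⟩
  rw [pow_one] at hπ
  obtain ⟨c, e, he, hc⟩ := key (τ • π) (smul_mem_of_stab hst hπ)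
  refine ⟨c, fun x hx => ?_⟩
  obtain ⟨d, f, hf, rfl⟩ := key x hx
  have h1 : τ • (π * d + f) - c * (π * d + f) =
      (π * (τ • d - d)) * c + e * (τ • d) + τ • f - c * f := by
    rw [smul_add, smul_mul', ← hc]; ring
  rw [h1]
  refine sub_mem (add_mem (add_mem ?_ ?_) ?_) ?_
  · apply Ideal.mul_mem_right
    rw [sq]
    exact Ideal.mul_mem_mul hπ (hτ d)
  · exact Ideal.mul_mem_right _ _ he
  · exact smul_pow_mem_of_stab hst 2 hf
  · exact Ideal.mul_mem_left _ _ hf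

/-- The relation of a Frobenius element with the tame inertia group. -/
theorem frob_tame [P.IsPrime] (hP : P ≠ ⊥) {τ : Γ} (hτ : τ ∈ P.inertia Γ) {σ : Γ}
    (hσ : σ ∈ MulAction.stabilizer Γ P) {q : ℕ} (hfr : ∀ x : S, σ • x - x ^ q ∈ P) :
    σ * τ * σ⁻¹ * (τ ^ q)⁻¹ ∈ Wd (Γ := Γ) P := by
  have hst : τ ∈ MulAction.stabilizer Γ P := Ideal.inertia_le_stabilizer P hτ
  obtain ⟨c, hc⟩ := exists_scalar P hP hτ
  have hσ' : σ⁻¹ ∈ MulAction.stabilizer Γ P := inv_mem hσ
  have hI : σ * τ * σ⁻¹ ∈ P.inertia Γ := by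
    intro x
    have h1 : (σ * τ * σ⁻¹) • x - x = σ • (τ • (σ⁻¹ • x) - σ⁻¹ • x) := by
      rw [smul_sub, smul_inv_smul, mul_smul, mul_smul]
    rw [h1]
    exact smul_mem_of_stab hσ (hτ _)
  have hpow : τ ^ q ∈ P.inertia Γ := pow_mem hτ q
  have hpow' : (τ ^ q)⁻¹ ∈ P.inertia Γ := inv_mem hpow
  refine ⟨mul_mem hI hpow', fun x hx => ?_⟩
  have hk : ∀ (k : ℕ), ∀ y ∈ P, τ ^ k • y - c ^ k * y ∈ P ^ 2 := by
    intro k
    induction k with
    | zero => intro y _; simp
    | succ k ih =>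
      intro y hy
      have h1 : τ ^ (k + 1) • y - c ^ (k + 1) * y =
          (τ ^ k • (τ • y) - c ^ k * (τ • y)) + c ^ k * (τ • y - c * y) := by
        rw [pow_succ τ, mul_smul]; ring
      rw [h1]
      exact add_mem (ih _ (smul_mem_of_stab hst hy)) (Ideal.mul_mem_left _ _ (hc y hy))
  have h2 : ∀ y ∈ P, (σ * τ * σ⁻¹) • y - c ^ q * y ∈ P ^ 2 := by
    intro y hy
    have h1 : (σ * τ * σ⁻¹) • y - c ^ q * y =
        σ • (τ • (σ⁻¹ • y) - c * (σ⁻¹ • y)) + (σ • c - c ^ q) * y := by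
      rw [smul_sub, smul_mul', smul_inv_smul, mul_smul, mul_smul]; ring
    rw [h1]
    refine add_mem (smul_pow_mem_of_stab hσ 2 (hc _ (smul_mem_of_stab hσ' hy))) ?_
    rw [sq]
    exact Ideal.mul_mem_mul (hfr c) hy
  set y := (τ ^ q)⁻¹ • x with hy
  have hyP : y ∈ P := smul_mem_of_stab (Ideal.inertia_le_stabilizer P hpow') hx
  have h3 : x = τ ^ q • y := by rw [hy, smul_inv_smul]
  have h4 : (σ * τ * σ⁻¹ * (τ ^ q)⁻¹) • x - x =
      ((σ * τ * σ⁻¹) • y - c ^ q * y) - (τ ^ q • y - c ^ q * y) := by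
    rw [mul_smul, ← hy, ← h3]; ring
  rw [h4]
  exact sub_mem (h2 y hyP) (hk q y hyP)

end Dedekind

end Pool.Agent.R768.IG
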