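import Pool.Agent.R768.IG.NF

/-!
# The main theorem
-/

set_option autoImplicit false

open scoped Pointwise NumberField

namespace Pool.Agent.R768.IG

section

variable {L : Type} [Field L] [NumberField L] [IsGalois ℚ L]

theorem Wd_cop {p ℓ : ℕ} (hp : p.Prime) (hℓ : ℓ.Prime) (hne : ℓ ≠ p) (P : Ideal (𝓞 L))
    [hP : P.IsPrime] (hpP : (p : 𝓞 L) ∈ P) :
    ∀ w ∈ Wd (Γ := (L ≃ₐ[ℚ] L)) P, ∃ n, Nat.Coprime n ℓ ∧ w ^ n = 1 := by
  intro w hw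
  have hfa : FaithfulSMul (L ≃ₐ[ℚ] L) (𝓞 L) := IsGaloisGroup.faithful ℤ
  obtain ⟨i, n', hn', hi⟩ := Nat.exists_eq_pow_mul_and_not_dvd (orderOf_pos w).ne' p hp.ne_one
  refine ⟨p ^ i, Nat.Coprime.pow_left _ ((Nat.coprime_primes hp hℓ).2 hne.symm), ?_⟩
  apply Wd_torsion P (Ideal.IsPrime.ne_top inferInstance) (pow_mem hw (p ^ i)) hpP (n := n')
  · exact ((Nat.Prime.coprime_iff_not_dvd hp).2 hn').symm
  · rw [← pow_mul, ← hi, pow_orderOf_eq_one]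

theorem ell_dvd_norm {p ℓ : ℕ} (hp : p.Prime) (hℓ : ℓ.Prime) (hne : ℓ ≠ p) (P : Ideal (𝓞 L))
    [hP : P.IsPrime] (hpP : (p : 𝓞 L) ∈ P) {t : L ≃ₐ[ℚ] L} (ht : t ∈ P.inertia (L ≃ₐ[ℚ] L))
    {j : ℕ} (hj : t ^ ℓ ^ j = 1) (ht1 : t ≠ 1) : ℓ ∣ p ^ (P.inertiaDeg ℤ) - 1 := by
  obtain ⟨hP0, hunder, hum, hfin1, hPm, hfin, hcard⟩ := prime_facts hp P hpP
  have hfa : FaithfulSMul (L ≃ₐ[ℚ] L) (𝓞 L) := IsGaloisGroup.faithful ℤ
  obtain ⟨f, hf⟩ := exists_tame_char (Γ := (L ≃ₐ[ℚ] L)) P hP0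
  have h1 : f ⟨t, ht⟩ ≠ 1 := by
    intro h
    refine ht1 (Wd_torsion P hPm.ne_top (hf _ h) hpP (n := ℓ ^ j) ?_ hj)
    exact Nat.Coprime.pow_left _ ((Nat.coprime_primes hℓ hp).2 hne)
  have h2 : (f ⟨t, ht⟩) ^ ℓ ^ j = 1 := by
    rw [← map_pow]
    have : (⟨t, ht⟩ : P.inertia (L ≃ₐ[ℚ] L)) ^ ℓ ^ j = 1 := Subtype.ext hj
    rw [this, map_one]
  have hlo : P.LiesOver (Ideal.span {(p : ℤ)}) := ⟨hunder.symm⟩
  have h3 : Nat.card (𝓞 L ⧸ P)ˣ = p ^ (P.inertiaDeg ℤ) - 1 := by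
    let _ : Field (𝓞 L ⧸ P) := Ideal.Quotient.field P
    rw [Ideal.pow_inertiaDeg p P, Nat.card_units (𝓞 L ⧸ P)]
    rfl
  rw [← h3]
  exact (ell_dvd_order hℓ h2 h1).trans (orderOf_dvd_natCard _)

theorem real_of (F : IntermediateField ℚ L) [IsGalois ℚ F]
    (h : ∀ x : L ≃ₐ[ℚ] L, x ^ 2 = 1 → (AlgEquiv.restrictNormalHom F x : F ≃ₐ[ℚ] F) = 1) :
    NumberField.IsTotallyReal F := by
  constructor
  intro v
  obtain ⟨φ, rfl⟩ : ∃ φ : F →+* ℂ, NumberField.InfinitePlace.mk φ = v :=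
    ⟨v.embedding, v.mk_embedding⟩
  rw [NumberField.InfinitePlace.isReal_mk_iff, NumberField.ComplexEmbedding.isReal_iff]
  let ψ : L →+* ℂ := NumberField.ComplexEmbedding.lift L φ
  have hψ : ∀ x : F, ψ (algebraMap F L x) = φ x := fun x =>
    NumberField.ComplexEmbedding.lift_algebraMap_apply L φ x
  obtain ⟨σ, hσ⟩ := NumberField.ComplexEmbedding.exists_comp_symm_eq_of_comp_eq (k := ℚ) ψ
    (NumberField.ComplexEmbedding.conjugate ψ) (Subsingleton.elim _ _)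
  have h1 : ∀ x, ψ (σ.symm x) = starRingEnd ℂ (ψ x) := fun x => RingHom.congr_fun hσ x
  have h2 : (σ.symm) ^ 2 = 1 := by
    ext x
    apply ψ.injective
    rw [sq, AlgEquiv.mul_apply, h1, h1, Complex.conj_conj]
    rfl
  have h3 := h _ h2
  ext x
  rw [NumberField.ComplexEmbedding.conjugate_coe_eq, ← hψ, ← h1]
  have h4 : σ.symm (algebraMap F L x) = algebraMap F L x := by
    have := AlgEquiv.restrictNormal_commutes σ.symm F x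
    rw [← this]
    congr 1
    exact DFunLike.congr_fun h3 x
  rw [h4]

theorem scholz_of_lifts (F : IntermediateField ℚ L) [IsGalois ℚ F] (N : Subgroup (L ≃ₐ[ℚ] L))
    [hNF : IsGaloisGroup N F L]
    (hN : (AlgEquiv.restrictNormalHom F : (L ≃ₐ[ℚ] L) →* (F ≃ₐ[ℚ] F)).ker = N) {E M : ℕ}
    (hE : 0 < E) (hL : Lifts E (AlgEquiv.restrictNormalHom F : (L ≃ₐ[ℚ] L) →* (F ≃ₐ[ℚ] F)))
    (hdiv : ∀ ℓ : ℕ, ℓ.Prime → ℓ ∣ Nat.card (F ≃ₐ[ℚ] F) → ℓ ^ (M + 1) ∣ E) :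
    NumberField.IsTotallyReal F ∧ ∀ p ℓ : ℕ, p.Prime → ℓ.Prime → ℓ ≠ p →
      ∀ P : Ideal (𝓞 F), P.IsPrime → (p : 𝓞 F) ∈ P →
        (ℓ ∣ P.ramificationIdx ℤ →
          ℓ ^ M ∣ p ^ (Nat.gcd (P.inertiaDeg ℤ) (ℓ - 1)) - 1) ∧
        ∀ Q : Subgroup (F ≃ₐ[ℚ] F), Q ≤ MulAction.stabilizer (F ≃ₐ[ℚ] F) P → IsPGroup ℓ Q →
          IsCyclic Q := by
  have hFn : NumberField F := inferInstance
  set r : (L ≃ₐ[ℚ] L) →* (F ≃ₐ[ℚ] F) := AlgEquiv.restrictNormalHom F with hr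
  constructor
  · apply real_of
    intro x hx
    change r x = 1
    by_contra hne
    have h2 : orderOf (r x) = 2 := by
      apply orderOf_eq_prime _ hne
      rw [← map_pow, hx, map_one]
    have h3 : 2 ∣ Nat.card (F ≃ₐ[ℚ] F) := by rw [← h2]; exact orderOf_dvd_natCard _
    exact hne (core_inv r hE hL ((dvd_pow_self 2 (Nat.succ_ne_zero M)).trans
      (hdiv 2 Nat.prime_two h3)) hx)
  intro p ℓ hp hℓ hne P' hP' hpP
  have hint : Algebra.IsIntegral (𝓞 F) (𝓞 L) := inferInstance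
  obtain ⟨P, hP, hPP⟩ : ∃ P : Ideal (𝓞 L), P.IsPrime ∧ P.LiesOver P' := by
    obtain ⟨⟨P, h1, h2⟩⟩ := (inferInstance : Nonempty (P'.primesOver (𝓞 L)))
    exact ⟨P, h1, h2⟩
  have hpP2 : (p : 𝓞 L) ∈ P := by
    have h1 := (Ideal.mem_of_liesOver P P' (p : 𝓞 F)).1 hpP
    simpa using h1
  obtain ⟨hP0, hunder, hum, hfin1, hPm, hfin, hcard⟩ := prime_facts hp P hpP2
  have hW := Wd_cop hp hℓ hne P hpP2
  constructor
  · intro hd
    obtain ⟨τ, hτ, j, hj, hτN⟩ := ell_inertia F N hp hℓ P' hpP P hpP2 hd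
    obtain ⟨σ, hσ⟩ := IsArithFrobAt.exists_of_isInvariant ℤ (L ≃ₐ[ℚ] L) P
    have hσs := hσ.mem_stabilizer
    have hfr : ∀ x : 𝓞 L, σ • x - x ^ p ∈ P := by
      intro x
      have := hσ x
      rw [hcard] at this
      exact this
    have hτ1 : r τ ≠ 1 := by
      intro h
      apply hτN
      rw [← hN]; exact h
    have hjr : (r τ) ^ ℓ ^ j = 1 := by rw [← map_pow, hj, map_one]
    have hℓH : ℓ ∣ Nat.card (F ≃ₐ[ℚ] F) :=
      (ell_dvd_order hℓ hjr hτ1).trans (orderOf_dvd_natCard _)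
    have hrτ : r τ ∈ P'.inertia (F ≃ₐ[ℚ] F) := by
      intro x
      rw [Submodule.mem_toAddSubgroup, Ideal.mem_of_liesOver P P', map_sub,
        ← algebraMap_restrict F]
      exact hτ _
    have hdvd := ell_dvd_norm hp hℓ hne P' hpP hrτ hjr hτ1
    have h1 := core_ram r hE hL (MulAction.stabilizer (L ≃ₐ[ℚ] L) P) (Wd P)
      (fun d hd w hw => Wd_norm P hd hw) hp hℓ hne hW hσs (Ideal.inertia_le_stabilizer P hτ)
      (frob_tame P hP0 hτ hσs hfr) hj hτ1 (hdiv ℓ hℓ hℓH) hdvd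
    exact (pow_dvd_pow ℓ (by omega)).trans h1
  · intro Q hQ hQℓ
    have hfℓ : Fact ℓ.Prime := ⟨hℓ⟩
    by_cases htriv : Subsingleton Q
    · exact isCyclic_of_subsingleton
    have hQnt : Nontrivial Q := not_subsingleton_iff_nontrivial.1 htriv
    obtain ⟨n, hn, hn1⟩ := (hQℓ.nontrivial_iff_card).1 hQnt
    have hℓH : ℓ ∣ Nat.card (F ≃ₐ[ℚ] F) := by
      refine dvd_trans ?_ (Subgroup.card_subgroup_dvd_card Q)
      rw [hn1]
      exact dvd_pow_self _ hn.ne'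
    have hle := hQ.trans (stab_le_map F N (by rw [← hN]) P' P)
    refine core_cyc r hL (MulAction.stabilizer (L ≃ₐ[ℚ] L) P) (P.inertia (L ≃ₐ[ℚ] L)) (Wd P)
      ?_ ((dvd_pow_self ℓ (Nat.succ_ne_zero M)).trans (hdiv ℓ hℓ hℓH)) hW (stab_cyc P)
      (inertia_cyc P hP0) Q hle hQℓ
    intro d hd x hx y
    have h1 : (d * x * d⁻¹) • y - y = d • (x • (d⁻¹ • y) - d⁻¹ • y) := by
      rw [smul_sub, smul_inv_smul, mul_smul, mul_smul]
    rw [h1]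
    exact smul_mem_of_stab hd (hx _)

end

end Pool.Agent.R768.IG
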