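import Pool.Agent.R768.IG.Core
import Pool.Agent.R768.IG.Cyc

/-!
# Ramification and decomposition groups in a Galois subfield
-/

set_option autoImplicit false

open scoped Pointwise NumberField

namespace Pool.Agent.R768.IG

/-- an element of `ℓ`-power order of `I` outside `N`, if `ℓ` divides `|I| / |I ∩ N|`. -/
theorem exists_ell {Γ : Type*} [Group Γ] [Finite Γ] (I N : Subgroup Γ) {ℓ e : ℕ} (hℓ : ℓ.Prime)
    (he : Nat.card I = e * Nat.card (N.subgroupOf I)) (hd : ℓ ∣ e) :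
    ∃ τ ∈ I, ∃ j, τ ^ ℓ ^ j = 1 ∧ τ ∉ N := by
  have := Fact.mk hℓ
  by_contra hcon
  push Not at hcon
  obtain ⟨Q⟩ : Nonempty (Sylow ℓ I) := inferInstance
  have hQN : (Q : Subgroup I) ≤ N.subgroupOf I := by
    intro x hx
    obtain ⟨j, hj⟩ := Q.isPGroup' ⟨x, hx⟩
    refine hcon x x.2 j ?_
    have := congrArg (fun y : Q => ((y : I) : Γ)) hj
    simpa using this
  have h1 : ¬ ℓ ∣ (Q : Subgroup I).index := Q.not_dvd_index
  have h2 : (N.subgroupOf I).index ∣ (Q : Subgroup I).index := Subgroup.index_dvd_of_le hQN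
  have h3 : (N.subgroupOf I).index = e := by
    have h4 := (N.subgroupOf I).card_mul_index
    rw [he, mul_comm] at h4
    exact Nat.eq_of_mul_eq_mul_right Nat.card_pos h4
  rw [h3] at h2
  exact h1 (hd.trans h2)

theorem card_subgroupOf_comm {Γ : Type*} [Group Γ] (A B : Subgroup Γ) :
    Nat.card (A.subgroupOf B) = Nat.card (B.subgroupOf A) := by
  rw [← Subgroup.inf_subgroupOf_right A B, ← Subgroup.inf_subgroupOf_left B A,
    Nat.card_congr (Subgroup.subgroupOfEquivOfLe inf_le_right).toEquiv,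
    Nat.card_congr (Subgroup.subgroupOfEquivOfLe inf_le_left).toEquiv]

section

variable {L : Type} [Field L] [NumberField L] [IsGalois ℚ L]

theorem prime_facts {p : ℕ} (hp : p.Prime) (P : Ideal (𝓞 L)) [hP : P.IsPrime]
    (hpP : (p : 𝓞 L) ∈ P) :
    P ≠ ⊥ ∧ P.under ℤ = Ideal.span {(p : ℤ)} ∧ (P.under ℤ).IsMaximal ∧
      Finite (ℤ ⧸ P.under ℤ) ∧ P.IsMaximal ∧ Finite (𝓞 L ⧸ P) ∧
      Nat.card (ℤ ⧸ P.under ℤ) = p := by
  have hP0 : P ≠ ⊥ := by
    rintro rfl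
    rw [Ideal.mem_bot] at hpP
    exact hp.ne_zero (by exact_mod_cast hpP)
  have hmax : (Ideal.span {(p : ℤ)}).IsMaximal :=
    PrincipalIdealRing.isMaximal_of_irreducible (Nat.prime_iff_prime_int.1 hp).irreducible
  have hunder : P.under ℤ = Ideal.span {(p : ℤ)} := by
    have hle : Ideal.span {(p : ℤ)} ≤ P.under ℤ := by
      rw [Ideal.span_singleton_le_iff_mem, Ideal.mem_comap]
      simpa using hpP
    exact (hmax.eq_of_le (Ideal.IsPrime.ne_top inferInstance) hle).symm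
  have hum : (P.under ℤ).IsMaximal := by rw [hunder]; exact hmax
  have hfin1 : Finite (ℤ ⧸ P.under ℤ) := by
    rw [hunder]
    have : NeZero p := ⟨hp.ne_zero⟩
    exact Finite.of_equiv _ (Int.quotientSpanNatEquivZMod p).symm.toEquiv
  refine ⟨hP0, hunder, hum, hfin1, hP.isMaximal hP0, Ideal.finiteQuotientOfFreeOfNeBot P hP0, ?_⟩
  rw [hunder, Nat.card_congr (Int.quotientSpanNatEquivZMod p).toEquiv, Nat.card_zmod]

theorem ell_inertia (F : IntermediateField ℚ L) (N : Subgroup (L ≃ₐ[ℚ] L))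
    [hNF : IsGaloisGroup N F L] {p ℓ : ℕ} (hp : p.Prime) (hℓ : ℓ.Prime)
    (P' : Ideal (𝓞 F)) [hP' : P'.IsPrime] (hpP : (p : 𝓞 F) ∈ P')
    (P : Ideal (𝓞 L)) [hP : P.IsPrime] [hPP : P.LiesOver P'] (hpP2 : (p : 𝓞 L) ∈ P)
    (hd : ℓ ∣ P'.ramificationIdx ℤ) :
    ∃ τ ∈ P.inertia (L ≃ₐ[ℚ] L), ∃ j, τ ^ ℓ ^ j = 1 ∧ τ ∉ N := by
  have hN : NumberField F := inferInstance
  obtain ⟨hP0, hunder, hum, hfin1, hPm, hfin, -⟩ := prime_facts hp P hpP2
  have hP'0 : P' ≠ ⊥ := by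
    rintro rfl
    rw [Ideal.mem_bot] at hpP
    exact hp.ne_zero (by exact_mod_cast hpP)
  have hP'm : P'.IsMaximal := hP'.isMaximal hP'0
  have hfin2 : Finite (𝓞 F ⧸ P') := Ideal.finiteQuotientOfFreeOfNeBot P' hP'0
  have hNI : IsGaloisGroup N (𝓞 F) (𝓞 L) := IsGaloisGroup.of_isFractionRing N (𝓞 F) (𝓞 L) F L
  apply exists_ell (P.inertia (L ≃ₐ[ℚ] L)) N (e := P'.ramificationIdx ℤ) hℓ _ hd
  have h1 : Nat.card (P.inertia (L ≃ₐ[ℚ] L)) = P.ramificationIdx ℤ := by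
    rw [Ideal.card_inertia_eq_ramificationIdxIn (G := (L ≃ₐ[ℚ] L)) (P.under ℤ) P]
    exact Ideal.ramificationIdxIn_eq_ramificationIdx (P.under ℤ) P (L ≃ₐ[ℚ] L)
  have h2 : Nat.card (P.inertia N) = P.ramificationIdx (𝓞 F) := by
    rw [Ideal.card_inertia_eq_ramificationIdxIn (G := N) P' P]
    exact Ideal.ramificationIdxIn_eq_ramificationIdx P' P N
  have h3 : Nat.card (N.subgroupOf (P.inertia (L ≃ₐ[ℚ] L))) = Nat.card (P.inertia N) := by
    have h4 : P.inertia N = (P.inertia (L ≃ₐ[ℚ] L)).subgroupOf N := rfl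
    rw [h4]
    exact card_subgroupOf_comm _ _
  rw [h1, h3, h2]
  exact Ideal.ramificationIdx_tower P' P

theorem algebraMap_restrict (F : IntermediateField ℚ L) [IsGalois ℚ F] (g : L ≃ₐ[ℚ] L)
    (x : 𝓞 F) : g • algebraMap (𝓞 F) (𝓞 L) x =
      algebraMap (𝓞 F) (𝓞 L) ((AlgEquiv.restrictNormalHom F g : F ≃ₐ[ℚ] F) • x) := by
  apply NumberField.RingOfIntegers.ext
  exact (AlgEquiv.restrictNormal_commutes g F (x : F)).symm

/-- decomposition groups of a Galois subfield are images of decomposition groups -/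
theorem stab_le_map (F : IntermediateField ℚ L) [IsGalois ℚ F] (N : Subgroup (L ≃ₐ[ℚ] L))
    [hNF : IsGaloisGroup N F L]
    (hN : N ≤ (AlgEquiv.restrictNormalHom F : (L ≃ₐ[ℚ] L) →* (F ≃ₐ[ℚ] F)).ker)
    (P' : Ideal (𝓞 F)) [hP' : P'.IsPrime] (P : Ideal (𝓞 L)) [hP : P.IsPrime]
    [hPP : P.LiesOver P'] :
    MulAction.stabilizer (F ≃ₐ[ℚ] F) P' ≤
      (MulAction.stabilizer (L ≃ₐ[ℚ] L) P).map (AlgEquiv.restrictNormalHom F) := by
  have hNn : NumberField F := inferInstance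
  have hNI : IsGaloisGroup N (𝓞 F) (𝓞 L) := IsGaloisGroup.of_isFractionRing N (𝓞 F) (𝓞 L) F L
  intro g' hg'
  obtain ⟨g, hg⟩ := AlgEquiv.restrictNormalHom_surjective L g'
  have hu : (g • P).under (𝓞 F) = P.under (𝓞 F) := by
    rw [← Ideal.over_def P P']
    ext x
    rw [Ideal.mem_comap, Ideal.mem_pointwise_smul_iff_inv_smul_mem, algebraMap_restrict F,
      map_inv]
    have h1 : (algebraMap (𝓞 F) (𝓞 L)
        (((AlgEquiv.restrictNormalHom F g : F ≃ₐ[ℚ] F))⁻¹ • x) ∈ P) ↔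
        ((AlgEquiv.restrictNormalHom F g : F ≃ₐ[ℚ] F))⁻¹ • x ∈ P' :=
      (Ideal.mem_of_liesOver P P' _).symm
    rw [h1, hg, ← Ideal.mem_pointwise_smul_iff_inv_smul_mem,
      MulAction.mem_stabilizer_iff.1 hg']
  obtain ⟨h, hh⟩ := Algebra.IsInvariant.exists_smul_of_under_eq (𝓞 F) (𝓞 L) N (g • P) P hu
  refine ⟨(h : L ≃ₐ[ℚ] L) * g, ?_, ?_⟩
  · rw [SetLike.mem_coe, MulAction.mem_stabilizer_iff, mul_smul]
    exact hh.symm
  · rw [map_mul, hg, MonoidHom.mem_ker.1 (hN h.2), one_mul]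

end

end Pool.Agent.R768.IG
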